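import Pool.Agent.X269.HP.Reg

/-!
# Products of double covers: regularity
-/

set_option autoImplicit false

namespace Pool.Agent.X269.HP

open IsLocalRing Pool.Agent.Y223.INV Pool.Agent.W418.LU2 Pool.Agent.TH188.QS
  Pool.Agent.H918R2.Quad Pool.Agent.TH188.ARC Pool.Agent.X269.KP Polynomial

variable {O K : Type} [CommRing O] [Field K] [Algebra O K] {W : ValuationSubring K}

section step

variable {C : Hyp O} {x y : K} {S : Subring K} {κ : Type} [Fintype κ] {p : κ → K}

/-- The map of the base to the local ring. -/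
noncomputable def oS (W : ValuationSubring K) {S : Subring K}
    (hOS : ∀ o, algebraMap O K o ∈ S) : O →+* lo W.toSubring S :=
  (algebraMap O K).codRestrict (lo W.toSubring S) fun o => le_lo _ _ (hOS o)

lemma oS_eval (hOS : ∀ o, algebraMap O K o ∈ S) (q : O[X]) (t : K) :
    eval₂ (lo W.toSubring S).subtype t (q.map (oS W hOS)) = aeval t q := by
  rw [eval₂_map]
  rfl

/-- Adjoining the second coordinate first. -/
theorem hyp_stepY (hOW : ∀ o, algebraMap O K o ∈ W) (h : Pt C x y) (hx : x ∈ W)
    (hS : S ≤ W.toSubring) (hOS : ∀ o, algebraMap O K o ∈ S)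
    (hreg : RegP W.toSubring (lo W.toSubring S) p) (L : Subfield K) (hSL : ∀ z ∈ S, z ∈ L)
    (hLalg : ∀ t, IsAlgebraic L t → t ∈ L) (hxL : x ∉ L)
    (hu : ¬ Nn W (aeval x (derivative C.h) * y - aeval x (derivative C.f))) :
    RegP W.toSubring (lo W.toSubring (Subring.closure ((S : Set K) ∪ {x, y})))
      (Sum.elim p fun _ : Unit => y) := by
  have hy := h.int hOW hx
  have hm : ∀ p : O[X], aeval x p ∈ W := aeval_mem (T := W.toSubring) hOW hx
  obtain ⟨hu0, hu1⟩ := Nn.inv (sub_mem (W.mul_mem _ _ (hm _) hy) (hm _)) hu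
  have hyL : Transcendental L y := by
    intro hy'
    have hyL := hLalg y hy'
    apply hxL
    apply hLalg
    let φ : O →+* L := (algebraMap O K).codRestrict L.toSubring fun o => hSL _ (hOS o)
    have hφ : ∀ (t : K) (q : O[X]), aeval t (q.map φ) = aeval t q := by
      intro t q
      rw [aeval_def, eval₂_map]
      rfl
    refine ⟨C.f.map φ - Polynomial.C (⟨y, hyL⟩ : L) * C.h.map φ -
      Polynomial.C (⟨y, hyL⟩ ^ 2 : L), ?_, ?_⟩
    · intro h0
      have h1 := congrArg (fun q => aeval x (derivative q)) h0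
      simp only [derivative_mul, derivative_C, zero_mul, zero_add, sub_zero,
        derivative_map, map_sub, map_mul, hφ, map_zero, aeval_C] at h1
      apply hu0
      have h2 : (algebraMap L K) ⟨y, hyL⟩ = y := rfl
      rw [h2] at h1
      linear_combination -h1
    · simp only [map_sub, map_mul, hφ, aeval_C, map_pow]
      have h2 : (algebraMap L K) ⟨y, hyL⟩ = y := rfl
      rw [h2]
      unfold Pt at h
      linear_combination -h
  have hR := trans_step hS hreg L hSL hy hyL
  set S' := Subring.closure (insert y (S : Set K)) with hS'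
  have hSW : S' ≤ W.toSubring := by
    rw [hS', Subring.closure_le]
    rintro z (rfl | hz)
    · exact hy
    · exact hS hz
  have hOS' : ∀ o, algebraMap O K o ∈ S' := fun o =>
    Subring.subset_closure (Set.mem_insert_of_mem _ (hOS o))
  have hyS' : y ∈ S' := Subring.subset_closure (Set.mem_insert _ _)
  let Y : lo W.toSubring S' := ⟨y, le_lo _ _ hyS'⟩
  have hY : (lo W.toSubring S').subtype Y = y := rfl
  have h2 := root_derivP (loc_V W) hSW hR hx (C.f.map (oS W hOS') -
      Polynomial.C Y * C.h.map (oS W hOS') - Polynomial.C (Y ^ 2)) (by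
    rw [eval₂_sub, eval₂_sub, eval₂_mul, oS_eval, oS_eval, eval₂_C, eval₂_C, map_pow, hY]
    unfold Pt at h
    linear_combination -h) (by
    simp only [derivative_sub, derivative_mul, derivative_C, zero_mul, zero_add, sub_zero,
      derivative_map, eval₂_sub, eval₂_mul, oS_eval, eval₂_C, hY]
    intro h0
    apply hu0
    linear_combination -h0) (by
    simp only [derivative_sub, derivative_mul, derivative_C, zero_mul, zero_add, sub_zero,
      derivative_map, eval₂_sub, eval₂_mul, oS_eval, eval₂_C, hY]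
    have h3 := W.neg_mem _ hu1
    rw [← inv_neg] at h3
    have e : aeval x (derivative C.f) - y * aeval x (derivative C.h) =
        -(aeval x (derivative C.h) * y - aeval x (derivative C.f)) := by ring
    rw [e]
    exact h3)
  rw [closure_two] at h2
  rwa [Set.pair_comm]

/-- Adjoining a smooth curve. -/
theorem hyp_step (hOW : ∀ o, algebraMap O K o ∈ W) (h : Pt C x y) (hx : x ∈ W)
    (hS : S ≤ W.toSubring) (hOS : ∀ o, algebraMap O K o ∈ S)
    (hreg : RegP W.toSubring (lo W.toSubring S) p) (L : Subfield K) (hSL : ∀ z ∈ S, z ∈ L)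
    (hLalg : ∀ t, IsAlgebraic L t → t ∈ L) (hxL : x ∉ L) (hsm : SmP C x y W) :
    RegP W.toSubring (lo W.toSubring (Subring.closure ((S : Set K) ∪ {x, y}))) p := by
  rcases hsm with hu | hu
  · have hy := h.int hOW hx
    have hm : ∀ p : O[X], aeval x p ∈ W := aeval_mem (T := W.toSubring) hOW hx
    have t2 : (2 : K) ∈ W := num_mem hOW 2
    obtain ⟨hu0, hu1⟩ := Nn.inv (W.add_mem _ _ (W.mul_mem _ _ t2 hy) (hm _)) hu
    have hxL' : Transcendental L x := fun h => hxL (hLalg x h)
    have hR := regP_sub (trans_step hS hreg L hSL hx hxL') Sum.inl Sum.inl_injective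
    set S' := Subring.closure (insert x (S : Set K)) with hS'
    have hSW : S' ≤ W.toSubring := by
      rw [hS', Subring.closure_le]
      rintro z (rfl | hz)
      · exact hx
      · exact hS hz
    have hOS' : ∀ o, algebraMap O K o ∈ S' := fun o =>
      Subring.subset_closure (Set.mem_insert_of_mem _ (hOS o))
    have hxS' : x ∈ S' := Subring.subset_closure (Set.mem_insert _ _)
    have hmS : ∀ q : O[X], aeval x q ∈ lo W.toSubring S' := fun q =>
      le_lo _ _ (aeval_mem hOS' hxS' q)
    let H : lo W.toSubring S' := ⟨aeval x C.h, hmS _⟩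
    let G : lo W.toSubring S' := ⟨aeval x C.f, hmS _⟩
    have hH : (lo W.toSubring S').subtype H = aeval x C.h := rfl
    have hG : (lo W.toSubring S').subtype G = aeval x C.f := rfl
    have hd : derivative (X ^ 2 + Polynomial.C H * X - Polynomial.C G : (lo W.toSubring S')[X]) =
        X + X + Polynomial.C H := by
      rw [pow_two]
      simp only [derivative_sub, derivative_add, derivative_mul, derivative_C, derivative_X]
      ring
    have h2 := root_derivP (loc_V W) hSW hR hy (X ^ 2 + Polynomial.C H * X - Polynomial.C G) (by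
      rw [eval₂_sub, eval₂_add, eval₂_mul, eval₂_pow, eval₂_X, eval₂_C, eval₂_C, hH, hG]
      unfold Pt at h
      linear_combination h) (by
      rw [hd, eval₂_add, eval₂_add, eval₂_X, eval₂_C, hH, ← two_mul]
      exact hu0) (by
      rw [hd, eval₂_add, eval₂_add, eval₂_X, eval₂_C, hH, ← two_mul]
      exact hu1)
    rw [closure_two] at h2
    exact h2
  · exact regP_sub (hyp_stepY hOW h hx hS hOS hreg L hSL hLalg hxL hu) Sum.inl Sum.inl_injective

end step

section max

/-- The square of the maximal ideal of a local ring of an affine scheme. -/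
theorem max_sq {A : Type} [CommRing A] [Algebra A K] (hA : Function.Injective (algebraMap A K))
    (hAW : ∀ a, algebraMap A K a ∈ W) [IsLocalRing (lo W.toSubring (algebraMap A K).range)] (c : A)
    (h : (⟨algebraMap A K c, le_lo _ _ ⟨c, rfl⟩⟩ : lo W.toSubring (algebraMap A K).range) ∈
      maximalIdeal (lo W.toSubring (algebraMap A K).range) ^ 2) :
    ∃ s ∉ pr A W hAW, s * c ∈ pr A W hAW ^ 2 := by
  classical
  have hSW : (algebraMap A K).range ≤ W.toSubring := by
    rintro _ ⟨o, rfl⟩
    exact hAW o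
  set P := lo W.toSubring (algebraMap A K).range with hP
  have hSP : (algebraMap A K).range ≤ P := le_lo _ _
  let _ : Algebra A P := ((algebraMap A K).codRestrict P fun o => hSP ⟨o, rfl⟩).toAlgebra
  have halg : ∀ a : A, ((algebraMap A P a : P) : K) = algebraMap A K a := fun a => rfl
  have hprime : (pr A W hAW).IsPrime := pr_prime W hAW
  have hu : ∀ a : A, a ∉ pr A W hAW ↔ IsUnit (algebraMap A P a) := by
    intro a
    rw [mem_pr, isUnit_lo_iff hSW, halg, NU, not_not]
  have hL : IsLocalization.AtPrime P (pr A W hAW) :=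
    { map_units := fun y => (hu y.1).1 y.2
      surj := by
        rintro ⟨z, a, ⟨a', rfl⟩, b, ⟨b', rfl⟩, hb0, hbW, rfl⟩
        refine ⟨(a', ⟨b', ?_⟩), ?_⟩
        · change b' ∉ pr A W hAW
          rw [hu, isUnit_lo_iff hSW]
          exact ⟨hb0, hbW⟩
        · apply Subtype.ext
          change algebraMap A K a' * (algebraMap A K b')⁻¹ * algebraMap A K b' = algebraMap A K a'
          rw [mul_assoc, inv_mul_cancel₀ hb0, mul_one]
      exists_of_eq := by
        intro a b h
        refine ⟨1, ?_⟩
        have h1 : a = b := hA (congrArg (Subtype.val : P → K) h)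
        rw [h1] }
  have h' : algebraMap A P c ∈ maximalIdeal P ^ 2 := h
  rw [← IsLocalization.AtPrime.map_eq_maximalIdeal (pr A W hAW) P, ← Ideal.map_pow,
    IsLocalization.mem_map_algebraMap_iff (pr A W hAW).primeCompl] at h'
  obtain ⟨⟨a, s⟩, h'⟩ := h'
  refine ⟨s, s.2, ?_⟩
  have h1 : c * (s : A) = a := hA (by
    have h2 := congrArg (Subtype.val : P → K) h'
    rw [map_mul]
    exact h2)
  rw [mul_comm, h1]
  exact a.2

end max

section bad

variable {C : Hyp O} {x y : K}

/-- The branch polynomial is not in the square of a prime which does not contain `2`. -/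
def Hyp.IsReg (C : Hyp O) : Prop :=
  ∀ 𝔪 : Ideal O[X], 𝔪.IsPrime → (2 : O[X]) ∉ 𝔪 → ∀ s ∉ 𝔪, s * C.branch ∉ 𝔪 ^ 2

/-- A singular point. -/
theorem hyp_bad [IsDedekindDomain O] (hO : Function.Injective (algebraMap O K))
    (hOW : ∀ o, algebraMap O K o ∈ W) (h : Pt C x y) (hx : x ∈ W) (hC : C.IsReg)
    (h2 : ¬ Nn W (2 : K)) (hs : Nn W (2 * y + aeval x C.h)) (L : Subfield K)
    (hOL : ∀ o, algebraMap O K o ∈ L) (hxL : Transcendental L x) :
    IsRegularLocalRing (lo W.toSubring (Subring.closure
      (Set.range (algebraMap O K) ∪ {x, y}))) := by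
  have hy := h.int hOW hx
  have t2 : (2 : K) ∈ W := num_mem hOW 2
  obtain ⟨h20, h2i⟩ := Nn.inv t2 h2
  have hS0 : (algebraMap O K).range ≤ W.toSubring := by
    rintro _ ⟨o, rfl⟩
    exact hOW o
  have hR0 := (base_reg hO W hOW).1
  have hR1 := trans_reg hS0 hR0 L (by
    rintro _ ⟨o, rfl⟩
    exact hOL o) hx hxL
  -- the polynomial ring
  let _ : Algebra O[X] K := (aeval x : O[X] →ₐ[O] K).toRingHom.toAlgebra
  have halg : ∀ q : O[X], algebraMap O[X] K q = aeval x q := fun q => rfl
  have hinj : Function.Injective (algebraMap O[X] K) := by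
    rw [injective_iff_map_eq_zero]
    intro q hq
    rw [halg] at hq
    let φ : O →+* L := (algebraMap O K).codRestrict L.toSubring hOL
    have hφ : Function.Injective φ := by
      intro a b hab
      exact hO (congrArg (fun z : L => (z : K)) hab)
    have h1 : aeval x (q.map φ) = 0 := by
      rw [aeval_def, eval₂_map]
      exact hq
    have h3 := (transcendental_iff.1 hxL) _ h1
    exact (Polynomial.map_eq_zero_iff hφ).1 h3
  have hqW : ∀ q : O[X], algebraMap O[X] K q ∈ W := fun q => by
    rw [halg]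
    exact aeval_mem (T := W.toSubring) hOW hx q
  have hcl : Subring.closure (insert x ((algebraMap O K).range : Set K)) =
      (algebraMap O[X] K).range := by
    apply le_antisymm
    · rw [Subring.closure_le]
      rintro z (rfl | ⟨o, rfl⟩)
      · exact ⟨X, by rw [halg, aeval_X]⟩
      · exact ⟨Polynomial.C o, by rw [halg, aeval_C]⟩
    · rintro _ ⟨q, rfl⟩
      rw [halg]
      have hOc : ∀ o, algebraMap O K o ∈
          Subring.closure (insert x ((algebraMap O K).range : Set K)) := fun o =>
        Subring.subset_closure (Or.inr ⟨o, rfl⟩)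
      exact aeval_mem hOc (Subring.subset_closure (Set.mem_insert _ _)) q
  rw [hcl] at hR1
  set S1 : Subring K := (algebraMap O[X] K).range with hS1
  have hS1W : S1 ≤ W.toSubring := by
    rintro _ ⟨q, rfl⟩
    exact hqW q
  have hOS1 : ∀ q : O[X], aeval x q ∈ S1 := fun q => ⟨q, halg q⟩
  have hloc : IsLocalRing (lo W.toSubring S1) := hR1.toIsLocalRing
  have hDn : Nn W (aeval x C.branch) := by
    rw [branch_eval h, pow_two]
    exact hs.mul hs.1
  have hD : (⟨algebraMap O[X] K C.branch, le_lo _ _ ⟨C.branch, rfl⟩⟩ : lo W.toSubring S1) ∉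
      maximalIdeal (lo W.toSubring S1) ^ 2 := by
    intro hcon
    obtain ⟨s, hs1, hs2⟩ := max_sq hinj hqW C.branch hcon
    refine hC _ (pr_prime W hqW) ?_ s hs1 hs2
    rw [mem_pr, halg, map_ofNat]
    exact fun h => h2 ⟨t2, h⟩
  -- the parameter
  have h2lo : (2 : K)⁻¹ ∈ lo W.toSubring S1 :=
    inv_mem_lo hS1W (by
      have := le_lo W.toSubring S1 (hOS1 2)
      rwa [map_ofNat] at this) h20 h2i
  let I2 : lo W.toSubring S1 := ⟨(2 : K)⁻¹, h2lo⟩
  let DD : lo W.toSubring S1 := ⟨algebraMap O[X] K C.branch, le_lo _ _ ⟨C.branch, rfl⟩⟩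
  have hI2 : I2 * 2 = 1 := Subtype.ext (inv_mul_cancel₀ h20)
  have hcu : ∀ (𝔞 : Ideal (lo W.toSubring S1)), -(I2 * I2 * DD) ∈ 𝔞 ↔ DD ∈ 𝔞 := by
    intro 𝔞
    constructor
    · intro h1
      have h3 := 𝔞.mul_mem_left (-(2 * 2)) h1
      have h4 : -(2 * 2) * -(I2 * I2 * DD) = (I2 * 2) * (I2 * 2) * DD := by ring
      rwa [h4, hI2, one_mul, one_mul] at h3
    · intro h1
      exact 𝔞.neg_mem (𝔞.mul_mem_left _ h1)
  have hDm : DD ∈ maximalIdeal (lo W.toSubring S1) := by
    rw [mem_maximalIdeal, mem_nonunits_iff, isUnit_lo_iff hS1W]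
    exact hDn.2
  let cc : lo W.toSubring S1 := -(I2 * I2 * DD)
  have hR2 : RegP W.toSubring (lo W.toSubring S1) (fun _ : Unit => (cc : K)) :=
    regP_one hS1W hR1 cc.2 ((hcu _).2 hDm) (fun h1 => hD ((hcu _).1 h1))
  let H : lo W.toSubring S1 := ⟨aeval x C.h, le_lo _ _ (hOS1 _)⟩
  let G : lo W.toSubring S1 := ⟨aeval x C.f, le_lo _ _ (hOS1 _)⟩
  have hH : (lo W.toSubring S1).subtype H = aeval x C.h := rfl
  have hG : (lo W.toSubring S1).subtype G = aeval x C.f := rfl
  have hR3 := root_const (loc_V W) hS1W hR2 hy (X ^ 2 + Polynomial.C H * X - Polynomial.C G) (by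
      rw [eval₂_sub, eval₂_add, eval₂_mul, eval₂_pow, eval₂_X, eval₂_C, eval₂_C, hH, hG]
      unfold Pt at h
      linear_combination h) () (by
    have ad := adj_closure (loc_V W) hS1W hy
    have hprime := ad.P_prime
    have e1 : (X ^ 2 + Polynomial.C H * X - Polynomial.C G : (lo W.toSubring S1)[X]) -
        Polynomial.C (⟨(cc : K), hR2.mem ()⟩ : lo W.toSubring S1) =
          (X + Polynomial.C (I2 * H)) * (X + Polynomial.C (I2 * H)) := by
      change (X ^ 2 + Polynomial.C H * X - Polynomial.C G : (lo W.toSubring S1)[X]) -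
        Polynomial.C (-(I2 * I2 * DD)) = _
      have e2 : DD = H ^ 2 + 4 * G := by
        apply Subtype.ext
        change aeval x C.branch = aeval x C.h ^ 2 + 4 * aeval x C.f
        rw [Hyp.branch, map_add, map_mul, map_pow, map_ofNat]
      have e3 : Polynomial.C I2 * 2 = (1 : (lo W.toSubring S1)[X]) := by
        have h4 : (2 : (lo W.toSubring S1)[X]) = Polynomial.C 2 := rfl
        rw [h4, ← Polynomial.C_mul, hI2, Polynomial.C_1]
      rw [e2]
      simp only [Polynomial.C_neg, Polynomial.C_mul, Polynomial.C_add, Polynomial.C_pow]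
      have h4 : (Polynomial.C (4 : lo W.toSubring S1)) = (4 : (lo W.toSubring S1)[X]) := rfl
      rw [h4]
      linear_combination (-(Polynomial.C H * X) + Polynomial.C G * (Polynomial.C I2 * 2 + 1)) * e3
    rw [e1, pow_two]
    have h5 : (X + Polynomial.C (I2 * H) : (lo W.toSubring S1)[X]) ∈ ad.P := by
      by_contra hcon
      rw [ad.not_mem_P, isUnit_lo_iff ad.SA, ad.ev_coe, eval₂_add, eval₂_X, eval₂_C] at hcon
      have h6 : y + (lo W.toSubring S1).subtype (I2 * H) = (2 : K)⁻¹ * (2 * y + aeval x C.h) := by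
        change y + (2 : K)⁻¹ * aeval x C.h = _
        field_simp
      rw [h6] at hcon
      exact not_nn hcon.1 hcon.2 (hs.mul h2i)
    exact Ideal.mul_mem_mul h5 h5)
  have hcl2 : Subring.closure (insert y (S1 : Set K)) =
      Subring.closure (Set.range (algebraMap O K) ∪ {x, y}) := by
    rw [← hcl, closure_insert']
    congr 1
    ext z
    simp only [Set.mem_insert_iff, Set.mem_union, SetLike.mem_coe, RingHom.mem_range,
      Set.mem_range, Set.mem_singleton_iff]
    tauto
  rwa [hcl2] at hR3

end bad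

end Pool.Agent.X269.HP
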