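import Pool.Agent.X269.HP.Prod

/-!
# Hyperelliptic equations
-/

set_option autoImplicit false

namespace Pool.Agent.X269.HP

open IsLocalRing Pool.Agent.Y223.INV Pool.Agent.W418.LU2 Pool.Agent.TH188.QS
  Pool.Agent.H918R2.Quad Pool.Agent.TH188.ARC Pool.Agent.X269.KP Polynomial

/-- The equation `y ^ 2 + h y = f` of a double cover of the projective line. -/
structure Hyp (R : Type) [CommRing R] where
  /-- the degree of `h` -/
  r : ℕ
  /-- the linear term -/
  h : R[X]
  /-- the constant term -/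
  f : R[X]

section poly

variable {R : Type} [CommRing R]

/-- The degrees of the coefficients. -/
def Hyp.IsDeg (C : Hyp R) : Prop := 0 < C.r ∧ C.h.natDegree ≤ C.r ∧ C.f.natDegree ≤ 2 * C.r

/-- The equation at infinity. -/
noncomputable def Hyp.rev (C : Hyp R) : Hyp R where
  r := C.r
  h := reflect C.r C.h
  f := reflect (2 * C.r) C.f

/-- The branch polynomial. -/
noncomputable def Hyp.branch (C : Hyp R) : R[X] := C.h ^ 2 + 4 * C.f

end poly

variable {O K : Type} [CommRing O] [Field K] [Algebra O K]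

/-- The point `(x, y)` is on the curve. -/
def Pt (C : Hyp O) (x y : K) : Prop := y ^ 2 + aeval x C.h * y = aeval x C.f

lemma reflect_eval {x : K} (hx : x ≠ 0) {N : ℕ} {p : O[X]} (hp : p.natDegree ≤ N) :
    aeval x⁻¹ (reflect N p) = aeval x p / x ^ N := by
  let _ : Invertible x := invertibleOfNonzero hx
  have h1 := eval₂_reflect_mul_pow (algebraMap O K) x N p hp
  rw [invOf_eq_inv] at h1
  rw [eq_div_iff (pow_ne_zero _ hx)]
  exact h1

lemma Pt.rev {C : Hyp O} (hC : C.IsDeg) {x y : K} (h : Pt C x y) (hx : x ≠ 0) :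
    Pt C.rev x⁻¹ (y / x ^ C.r) := by
  unfold Pt Hyp.rev at *
  simp only
  rw [reflect_eval hx hC.2.1, reflect_eval hx hC.2.2]
  have h1 : x ^ (2 * C.r) = x ^ C.r * x ^ C.r := by rw [two_mul, pow_add]
  rw [h1]
  field_simp
  linear_combination h

variable {W : ValuationSubring K}

lemma aeval_mem {T : Subring K} (hO : ∀ o, algebraMap O K o ∈ T) {x : K} (hx : x ∈ T) (p : O[X]) :
    aeval x p ∈ T := by
  rw [aeval_eq_sum_range]
  refine T.sum_mem fun i _ => ?_
  rw [Algebra.smul_def]
  exact T.mul_mem (hO _) (T.pow_mem hx i)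

/-- Integrality of `y`. -/
lemma Pt.int {C : Hyp O} {x y : K} (h : Pt C x y) (hOW : ∀ o, algebraMap O K o ∈ W)
    (hx : x ∈ W) : y ∈ W := by
  by_contra hy
  have hy0 := ne_zero_of_not hy
  have hyi := inv_mem_of_not hy
  apply hy
  have hh : aeval x C.h ∈ W := aeval_mem (T := W.toSubring) hOW hx C.h
  have hf : aeval x C.f ∈ W := aeval_mem (T := W.toSubring) hOW hx C.f
  have h1 : y = aeval x C.f * y⁻¹ - aeval x C.h := by
    unfold Pt at h
    rw [← h]
    field_simp
    ring
  rw [h1]
  exact sub_mem (W.mul_mem _ _ hf hyi) hh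

open Classical in
/-- The first local coordinate. -/
noncomputable def lx (W : ValuationSubring K) (x : K) : K := if x ∈ W then x else x⁻¹

open Classical in
/-- The second local coordinate. -/
noncomputable def ly (W : ValuationSubring K) (r : ℕ) (x y : K) : K :=
  if x ∈ W then y else y / x ^ r

open Classical in
/-- The local equation. -/
noncomputable def lc (W : ValuationSubring K) (C : Hyp O) (x : K) : Hyp O :=
  if x ∈ W then C else C.rev

/-- The denominator. -/
noncomputable def lh (W : ValuationSubring K) (r : ℕ) (x : K) : K :=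
  open Classical in if x ∈ W then 1 else x ^ r

lemma lx_mem (x : K) : lx W x ∈ W := by
  rw [lx]
  split_ifs with h
  · exact h
  · exact inv_mem_of_not h

lemma lc_pt {C : Hyp O} (hC : C.IsDeg) {x y : K} (h : Pt C x y) :
    Pt (lc W C x) (lx W x) (ly W C.r x y) := by
  rw [lc, lx, ly]
  split_ifs with h1
  · exact h
  · exact h.rev hC (ne_zero_of_not h1)

lemma ly_mem {C : Hyp O} (hC : C.IsDeg) {x y : K} (h : Pt C x y)
    (hOW : ∀ o, algebraMap O K o ∈ W) : ly W C.r x y ∈ W :=
  (lc_pt hC h).int hOW (lx_mem x)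

lemma lh_ne {r : ℕ} (x : K) : lh W r x ≠ 0 := by
  rw [lh]
  split_ifs with h
  · exact one_ne_zero
  · exact pow_ne_zero _ (ne_zero_of_not h)

section mods

variable {ι : Type}

/-- The forms on the curve. -/
def HM (C : ι → Hyp O) (x y : ι → K) (i : ι) : Submodule O K :=
  Submodule.span O ({z | ∃ k, k ≤ (C i).r ∧ z = x i ^ k} ∪ {y i})

/-- The forms which vanish on the fixed points of the hyperelliptic involution modulo `2`. -/
def HN (C : ι → Hyp O) (x y : ι → K) (i : ι) : Submodule O K :=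
  Submodule.span O ({z | ∃ k, k ≤ (C i).r ∧ z = 2 * x i ^ k} ∪ {aeval (x i) (C i).h, y i})

/-- The forms which vanish modulo `2`. -/
def HT (C : ι → Hyp O) (x y : ι → K) (i : ι) : Submodule O K :=
  Submodule.span O ({z | ∃ k, k ≤ (C i).r ∧ z = 2 * x i ^ k} ∪ {2 * y i})

variable {C : ι → Hyp O} {x y : ι → K} {i : ι}

lemma HM_ind {p : K → Prop} (h0 : p 0) (hadd : ∀ x z, p x → p z → p (x + z))
    (hsm : ∀ (r : O) x, p x → p (algebraMap O K r * x)) (h1 : ∀ k ≤ (C i).r, p (x i ^ k))
    (h2 : p (y i)) : ∀ z ∈ HM C x y i, p z := by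
  intro z hz
  induction hz using Submodule.span_induction with
  | mem z hz =>
    rcases hz with ⟨k, hk, rfl⟩ | rfl
    · exact h1 k hk
    · exact h2
  | zero => exact h0
  | add x z _ _ hx hz => exact hadd x z hx hz
  | smul r x _ hx => rw [Algebra.smul_def]; exact hsm r x hx

lemma HN_ind {p : K → Prop} (h0 : p 0) (hadd : ∀ x z, p x → p z → p (x + z))
    (hsm : ∀ (r : O) x, p x → p (algebraMap O K r * x)) (h1 : ∀ k ≤ (C i).r, p (2 * x i ^ k))
    (h2 : p (aeval (x i) (C i).h)) (h3 : p (y i)) : ∀ z ∈ HN C x y i, p z := by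
  intro z hz
  induction hz using Submodule.span_induction with
  | mem z hz =>
    rcases hz with ⟨k, hk, rfl⟩ | rfl | rfl
    · exact h1 k hk
    · exact h2
    · exact h3
  | zero => exact h0
  | add x z _ _ hx hz => exact hadd x z hx hz
  | smul r x _ hx => rw [Algebra.smul_def]; exact hsm r x hx

lemma HT_ind {p : K → Prop} (h0 : p 0) (hadd : ∀ x z, p x → p z → p (x + z))
    (hsm : ∀ (r : O) x, p x → p (algebraMap O K r * x)) (h1 : ∀ k ≤ (C i).r, p (2 * x i ^ k))
    (h2 : p (2 * y i)) : ∀ z ∈ HT C x y i, p z := by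
  intro z hz
  induction hz using Submodule.span_induction with
  | mem z hz =>
    rcases hz with ⟨k, hk, rfl⟩ | rfl
    · exact h1 k hk
    · exact h2
  | zero => exact h0
  | add x z _ _ hx hz => exact hadd x z hx hz
  | smul r x _ hx => rw [Algebra.smul_def]; exact hsm r x hx

lemma HM_pow {k : ℕ} (hk : k ≤ (C i).r) : x i ^ k ∈ HM C x y i :=
  Submodule.subset_span (Or.inl ⟨k, hk, rfl⟩)

lemma HM_y : y i ∈ HM C x y i := Submodule.subset_span (Or.inr rfl)

lemma HM_one : (1 : K) ∈ HM C x y i := by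
  have h := HM_pow (C := C) (x := x) (y := y) (i := i) (Nat.zero_le _)
  rwa [pow_zero] at h

lemma HM_smul {z : K} (hz : z ∈ HM C x y i) (o : O) : algebraMap O K o * z ∈ HM C x y i := by
  rw [← Algebra.smul_def]
  exact Submodule.smul_mem _ _ hz

lemma HM_aeval {p : O[X]} (hp : p.natDegree ≤ (C i).r) : aeval (x i) p ∈ HM C x y i := by
  rw [aeval_eq_sum_range]
  refine Submodule.sum_mem _ fun k hk => Submodule.smul_mem _ _ (HM_pow ?_)
  rw [Finset.mem_range] at hk
  omega

lemma HN_le (hC : (C i).IsDeg) : HN C x y i ≤ HM C x y i := by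
  have h2 : ∀ z ∈ HM C x y i, 2 * z ∈ HM C x y i := by
    intro z hz
    have h := HM_smul hz (2 : O)
    rwa [map_ofNat] at h
  exact HN_ind (Submodule.zero_mem _) (fun x z => Submodule.add_mem _) (fun r x hx => HM_smul hx r)
    (fun k hk => h2 _ (HM_pow hk)) (HM_aeval hC.2.1) HM_y

lemma HT_le : HT C x y i ≤ HM C x y i := by
  have h2 : ∀ z ∈ HM C x y i, 2 * z ∈ HM C x y i := by
    intro z hz
    have h := HM_smul hz (2 : O)
    rwa [map_ofNat] at h
  exact HT_ind (Submodule.zero_mem _) (fun x z => Submodule.add_mem _) (fun r x hx => HM_smul hx r)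
    (fun k hk => h2 _ (HM_pow hk)) (h2 _ HM_y)

lemma pow_div {r k : ℕ} (hk : k ≤ r) (x : K) : ∃ m, x ^ k / lh W r x = lx W x ^ m := by
  rw [lh, lx]
  split_ifs with h
  · exact ⟨k, div_one _⟩
  · have h0 := ne_zero_of_not h
    refine ⟨r - k, ?_⟩
    rw [inv_pow, div_eq_iff (pow_ne_zero _ h0), inv_mul_eq_div, eq_div_iff (pow_ne_zero _ h0),
      ← pow_add]
    congr 1
    omega

lemma y_div {r : ℕ} (x y : K) : y / lh W r x = ly W r x y := by
  rw [lh, ly]
  split_ifs with h
  · exact div_one _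
  · rfl

lemma HM_div {T : Subring K} (hO : ∀ r, algebraMap O K r ∈ T) (hx : lx W (x i) ∈ T)
    (hy : ly W (C i).r (x i) (y i) ∈ T) : ∀ z ∈ HM C x y i, z / lh W (C i).r (x i) ∈ T := by
  refine HM_ind ?_ ?_ ?_ ?_ ?_
  · rw [zero_div]; exact T.zero_mem
  · intro x z hx hz
    rw [add_div]; exact T.add_mem hx hz
  · intro r x hx
    rw [mul_div_assoc]; exact T.mul_mem (hO r) hx
  · intro k hk
    obtain ⟨m, hm⟩ := pow_div (W := W) hk (x i)
    rw [hm]
    exact T.pow_mem hx m
  · rw [y_div]
    exact hy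

/-- The generators of the chart. -/
def HG (W : ValuationSubring K) (C : ι → Hyp O) (x y : ι → K) : Set K :=
  Set.range (algebraMap O K) ∪ {t | ∃ i, t = lx W (x i) ∨ t = ly W (C i).r (x i) (y i)}

lemma HG_sub (hC : ∀ i, (C i).IsDeg) (hE : ∀ i, Pt (C i) (x i) (y i))
    (hOW : ∀ o, algebraMap O K o ∈ W) : HG W C x y ⊆ (W : Set K) := by
  rintro t (⟨o, rfl⟩ | ⟨i, rfl | rfl⟩)
  · exact hOW o
  · exact lx_mem _
  · exact ly_mem (hC i) (hE i) hOW

lemma closure_HG (hC : ∀ i, (C i).IsDeg) :
    Subring.closure (DS (HM C x y) fun i => lh W (C i).r (x i)) =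
      Subring.closure (HG W C x y) := by
  apply le_antisymm
  · rw [Subring.closure_le]
    rintro t (⟨o, rfl⟩ | ⟨i, z, hz, rfl⟩)
    · exact Subring.subset_closure (Or.inl ⟨o, rfl⟩)
    · exact HM_div (T := Subring.closure (HG W C x y))
        (fun r => Subring.subset_closure (Or.inl ⟨r, rfl⟩))
        (Subring.subset_closure (Or.inr ⟨i, Or.inl rfl⟩))
        (Subring.subset_closure (Or.inr ⟨i, Or.inr rfl⟩)) z hz
  · rw [Subring.closure_le]
    have hmem : ∀ i, ∀ z ∈ HM C x y i, z / lh W (C i).r (x i) ∈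
        Subring.closure (DS (HM C x y) fun i => lh W (C i).r (x i)) := fun i z hz =>
      Subring.subset_closure (Or.inr ⟨i, z, hz, rfl⟩)
    rintro t (⟨o, rfl⟩ | ⟨i, rfl | rfl⟩)
    · exact Subring.subset_closure (Or.inl ⟨o, rfl⟩)
    · obtain ⟨hr, -, -⟩ := hC i
      by_cases h : x i ∈ W
      · have h1 := hmem i _ (HM_pow (C := C) (x := x) (y := y) (i := i) (k := 1) (by omega))
        rw [lh, if_pos h, pow_one, div_one] at h1
        rw [lx, if_pos h]
        exact h1
      · have h1 := hmem i _ (HM_pow (C := C) (x := x) (y := y) (i := i) (k := (C i).r - 1)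
          (by omega))
        have h0 := ne_zero_of_not h
        have h2 : x i ^ ((C i).r - 1) / x i ^ (C i).r = (x i)⁻¹ := by
          rw [div_eq_iff (pow_ne_zero _ h0), inv_mul_eq_div, eq_div_iff h0, ← pow_succ]
          congr 1
          omega
        rw [lh, if_neg h, h2] at h1
        rw [lx, if_neg h]
        exact h1
    · have h1 := hmem i _ (HM_y (C := C) (x := x) (y := y) (i := i))
      rw [y_div] at h1
      exact h1

end mods

end Pool.Agent.X269.HP
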