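import Pool.Agent.X269.HP.Chain

/-!
# Products of double covers: regularity, continued
-/

set_option autoImplicit false

namespace Pool.Agent.X269.HP

open IsLocalRing Pool.Agent.Y223.INV Pool.Agent.W418.LU2 Pool.Agent.TH188.QS
  Pool.Agent.H918R2.Quad Pool.Agent.TH188.ARC Pool.Agent.X269.KP Polynomial

variable {O K : Type} [CommRing O] [Field K] [Algebra O K] {W : ValuationSubring K}
variable {ι : Type} {C : ι → Hyp O} {x y : ι → K} {E : Type} [Field E] [Algebra E K]

lemma lc_cases {C : Hyp O} {x : K} {p : Hyp O → Prop} (h1 : p C) (h2 : p C.rev) :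
    p (lc W C x) := by
  rw [lc]
  split_ifs
  · exact h1
  · exact h2

lemma lx_mem_iff {L : Subfield K} {x : K} : lx W x ∈ L ↔ x ∈ L := by
  rw [lx]
  split_ifs with h
  · exact Iff.rfl
  · constructor
    · intro h1
      have h2 := L.inv_mem h1
      rwa [inv_inv] at h2
    · exact L.inv_mem

lemma pt_y_mem {L : Subfield K} (hL : ∀ t, IsAlgebraic L t → t ∈ L)
    (hO : ∀ o, algebraMap O K o ∈ L) {C : Hyp O} {x y : K} (h : Pt C x y) (hx : x ∈ L) : y ∈ L := by
  have hm : ∀ p : O[X], aeval x p ∈ L := aeval_mem (T := L.toSubring) hO hx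
  unfold Pt at h
  refine quad_mem hL (b := aeval x C.h) (c := -aeval x C.f) (hm _) (L.neg_mem (hm _)) ?_
  linear_combination h

/-- The generators for the indices in `J`. -/
def GJ (W : ValuationSubring K) (C : ι → Hyp O) (x y : ι → K) (J : Set ι) : Set K :=
  {t | ∃ i ∈ J, t = lx W (x i) ∨ t = ly W (C i).r (x i) (y i)}

/-- Adjoining smooth curves. -/
theorem hyp_chain [DecidableEq ι] (hC : ∀ i, (C i).IsDeg) (hE : ∀ i, Pt (C i) (x i) (y i))
    (hOW : ∀ o, algebraMap O K o ∈ W) (hOE : ∀ s o, algebraMap O K o ∈ LF E x s)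
    (hx : AlgebraicIndependent E x) (s₀ : Finset ι) (B : Set K) (hBW : B ⊆ (W : Set K))
    (hOB : Set.range (algebraMap O K) ⊆ B) (hBL : ∀ s, (s₀ : Set ι) ⊆ s → ∀ z ∈ B, z ∈ LF E x s)
    {κ₀ : Type} [Fintype κ₀] {p₀ : κ₀ → K}
    (hreg : RegP W.toSubring (lo W.toSubring (Subring.closure B)) p₀) (P : Set ι)
    (hP : ∀ i ∈ P, i ∉ s₀ → ¬ Nn W (aeval (lx W (x i)) (derivative (lc W (C i) (x i)).h) *
      ly W (C i).r (x i) (y i) - aeval (lx W (x i)) (derivative (lc W (C i) (x i)).f)))
    (hsm : ∀ i, i ∉ s₀ → SmP (lc W (C i) (x i)) (lx W (x i)) (ly W (C i).r (x i) (y i)) W)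
    (J : Finset ι) :
    (∀ i ∈ J, i ∉ s₀) → ∃ (κ : Type) (_ : Fintype κ) (p : κ → K),
      RegP W.toSubring (lo W.toSubring (Subring.closure (B ∪ GJ W C x y J))) p ∧
        Set.range p = Set.range p₀ ∪ {t | ∃ i ∈ J, i ∈ P ∧ t = ly W (C i).r (x i) (y i)} := by
  classical
  induction J using Finset.induction_on with
  | empty =>
    intro _
    have h1 : B ∪ GJ W C x y (∅ : Finset ι) = B := by
      ext t
      simp [GJ]
    refine ⟨κ₀, inferInstance, p₀, ?_, by simp⟩
    rw [h1]
    exact hreg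
  | insert i J hi ih =>
    intro hJ
    have hJ' : ∀ j ∈ J, j ∉ s₀ := fun j hj => hJ j (Finset.mem_insert_of_mem hj)
    have hi0 : i ∉ s₀ := hJ i (Finset.mem_insert_self _ _)
    obtain ⟨κ, _, p, h1, hrange⟩ := ih hJ'
    set S := Subring.closure (B ∪ GJ W C x y J) with hS
    have hSW : S ≤ W.toSubring := by
      rw [hS, Subring.closure_le]
      rintro t (ht | ⟨j, -, rfl | rfl⟩)
      · exact hBW ht
      · exact lx_mem _
      · exact ly_mem (hC j) (hE j) hOW
    set L := LF E x (s₀ ∪ J : Finset ι) with hL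
    have hLalg : ∀ t, IsAlgebraic L t → t ∈ L := fun t ht => LF_alg ht
    have hyL : ∀ j ∈ J, lx W (x j) ∈ L ∧ ly W (C j).r (x j) (y j) ∈ L := by
      intro j hj
      have h2 : x j ∈ L := self_mem_LF (by simp [hj])
      have h3 : lx W (x j) ∈ L := lx_mem_iff.2 h2
      exact ⟨h3, pt_y_mem hLalg (hOE _) (lc_pt (hC j) (hE j)) h3⟩
    have hSL : ∀ z ∈ S, z ∈ L := by
      have h2 : S ≤ L.toSubring := by
        rw [hS, Subring.closure_le]
        rintro t (ht | ⟨j, hj, rfl | rfl⟩)
        · exact hBL _ (by simp) t ht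
        · exact (hyL j hj).1
        · exact (hyL j hj).2
      exact fun z hz => h2 hz
    have hiL : i ∉ ((s₀ ∪ J : Finset ι) : Set ι) := by
      simp only [Finset.coe_union, Set.mem_union, Finset.mem_coe, not_or]
      exact ⟨hi0, hi⟩
    have hxL : lx W (x i) ∉ L := fun h => notMem_LF hx hiL (lx_mem_iff.1 h)
    have hOS : ∀ o, algebraMap O K o ∈ S := fun o => Subring.subset_closure (Or.inl (hOB ⟨o, rfl⟩))
    have h3 : Subring.closure ((S : Set K) ∪ {lx W (x i), ly W (C i).r (x i) (y i)}) =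
        Subring.closure (B ∪ GJ W C x y (insert i J : Finset ι)) := by
      apply le_antisymm
      · rw [Subring.closure_le]
        rintro t (ht | ht)
        · refine (Subring.closure_mono ?_ : S ≤ _) ht
          rintro t (ht | ⟨j, hj, ht⟩)
          · exact Or.inl ht
          · exact Or.inr ⟨j, Finset.mem_coe.2 (Finset.mem_insert_of_mem hj), ht⟩
        · exact Subring.subset_closure (Or.inr ⟨i,
            Finset.mem_coe.2 (Finset.mem_insert_self _ _), ht⟩)
      · rw [Subring.closure_le]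
        rintro t (ht | ⟨j, hj, ht⟩)
        · exact Subring.subset_closure (Or.inl (Subring.subset_closure (Or.inl ht)))
        · rw [Finset.mem_coe, Finset.mem_insert] at hj
          rcases hj with rfl | hj
          · exact Subring.subset_closure (Or.inr ht)
          · exact Subring.subset_closure (Or.inl (Subring.subset_closure (Or.inr ⟨j, hj, ht⟩)))
    by_cases hiP : i ∈ P
    · have h2 := hyp_stepY hOW (lc_pt (hC i) (hE i)) (lx_mem _) hSW hOS h1 L hSL hLalg hxL
        (hP i hiP hi0)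
      rw [h3] at h2
      refine ⟨κ ⊕ Unit, inferInstance, _, h2, ?_⟩
      rw [Set.Sum.elim_range, hrange]
      ext t
      simp only [Set.mem_union, Set.mem_range, Set.mem_ofPred_eq, Finset.mem_insert, exists_const]
      constructor
      · rintro ((h | ⟨j, hj, hjP, rfl⟩) | rfl)
        · exact Or.inl h
        · exact Or.inr ⟨j, Or.inr hj, hjP, rfl⟩
        · exact Or.inr ⟨i, Or.inl rfl, hiP, rfl⟩
      · rintro (h | ⟨j, rfl | hj, hjP, rfl⟩)
        · exact Or.inl (Or.inl h)
        · exact Or.inr rfl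
        · exact Or.inl (Or.inr ⟨j, hj, hjP, rfl⟩)
    · have h2 := hyp_step hOW (lc_pt (hC i) (hE i)) (lx_mem _) hSW hOS h1 L hSL hLalg hxL
        (hsm i hi0)
      rw [h3] at h2
      refine ⟨κ, inferInstance, _, h2, ?_⟩
      rw [hrange]
      ext t
      simp only [Set.mem_union, Set.mem_range, Set.mem_ofPred_eq, Finset.mem_insert]
      constructor
      · rintro (h | ⟨j, hj, hjP, rfl⟩)
        · exact Or.inl h
        · exact Or.inr ⟨j, Or.inr hj, hjP, rfl⟩
      · rintro (h | ⟨j, rfl | hj, hjP, rfl⟩)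
        · exact Or.inl h
        · exact absurd hjP hiP
        · exact Or.inr ⟨j, hj, hjP, rfl⟩

/-- The product of the curves is regular. -/
theorem hyp_reg [DecidableEq ι] [Fintype ι] [IsDedekindDomain O] [Algebra O E]
    [IsScalarTower O E K] (hO : Function.Injective (algebraMap O K))
    (hx : AlgebraicIndependent E x) (hC : ∀ i, (C i).IsDeg) (hE : ∀ i, Pt (C i) (x i) (y i))
    (hR : ∀ i, (C i).IsReg ∧ (C i).rev.IsReg) (d : ι → O)
    (hd : ∀ i, (C i).IsDisc (d i) ∧ (C i).rev.IsDisc (d i))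
    (hco : ∀ i j, i ≠ j → ∀ 𝔭 : Ideal O, 𝔭.IsPrime → d i ∈ 𝔭 → d j ∈ 𝔭 → (2 : O) ∈ 𝔭)
    (hOW : ∀ o, algebraMap O K o ∈ W)
    (hsm2 : Nn W (2 : K) → ∀ i, SmP (lc W (C i) (x i)) (lx W (x i)) (ly W (C i).r (x i) (y i)) W) :
    IsRegularLocalRing (lo W.toSubring (Subring.closure (HG W C x y))) := by
  classical
  have hprime := pr_prime (O := O) W hOW
  have hOE : ∀ s o, algebraMap O K o ∈ LF E x s := by
    intro s o
    rw [IsScalarTower.algebraMap_apply O E K]
    exact algebraMap_mem_LF _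
  have hcr : Subring.closure (Set.range (algebraMap O K)) = (algebraMap O K).range := by
    rw [← RingHom.coe_range]
    exact Subring.closure_eq _
  by_cases hb : ∃ b, ¬ SmP (lc W (C b) (x b)) (lx W (x b)) (ly W (C b).r (x b) (y b)) W
  · obtain ⟨b, hb⟩ := hb
    have h2 : ¬ Nn W (2 : K) := fun h2 => hb (hsm2 h2 b)
    have hdb : Nn W (algebraMap O K (d b)) := by
      by_contra h1
      exact hb (sm_of_disc' hOW (lc_pt (hC b) (hE b)) (lx_mem _)
        (lc_cases (p := fun C => C.IsDisc (d b)) (hd b).1 (hd b).2) h1)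
    have hbad : Nn W (2 * ly W (C b).r (x b) (y b) + aeval (lx W (x b)) (lc W (C b) (x b)).h) := by
      by_contra h1
      exact hb (Or.inl h1)
    have hLalg : ∀ (s : Set ι) t, IsAlgebraic (LF E x s) t → t ∈ LF E x s := fun s t ht => LF_alg ht
    have hxb : Transcendental (LF E x ∅) (lx W (x b)) :=
      trans_iff.2 fun h => notMem_LF hx (Set.notMem_empty b) (lx_mem_iff.1 h)
    have hreg := hyp_bad hO hOW (lc_pt (hC b) (hE b)) (lx_mem _)
      (lc_cases (p := fun C => C.IsReg) (hR b).1 (hR b).2) h2 hbad (LF E x ∅) (hOE _) hxb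
    have hBW : Set.range (algebraMap O K) ∪ {lx W (x b), ly W (C b).r (x b) (y b)} ⊆
        (W : Set K) := by
      rintro t (⟨o, rfl⟩ | rfl | rfl)
      · exact hOW o
      · exact lx_mem _
      · exact ly_mem (hC b) (hE b) hOW
    obtain ⟨κ, _, p, h1, -⟩ := hyp_chain hC hE hOW hOE hx {b}
      (Set.range (algebraMap O K) ∪ {lx W (x b), ly W (C b).r (x b) (y b)}) hBW
      Set.subset_union_left (by
      intro s hs
      have h3 : lx W (x b) ∈ LF E x s :=
        lx_mem_iff.2 (self_mem_LF (hs (Finset.mem_coe.2 (Finset.mem_singleton_self b))))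
      rintro t (⟨o, rfl⟩ | rfl | rfl)
      · exact hOE _ o
      · exact h3
      · exact pt_y_mem (hLalg s) (hOE _) (lc_pt (hC b) (hE b)) h3)
      (regP_empty (Subring.closure_le.2 hBW) hreg) ∅ (fun i hi => absurd hi (Set.notMem_empty i)) (by
      intro i hi
      refine sm_of_disc' hOW (lc_pt (hC i) (hE i)) (lx_mem _)
        (lc_cases (p := fun C => C.IsDisc (d i)) (hd i).1 (hd i).2) fun h4 => h2 ?_
      have h5 : (2 : O) ∈ pr O W hOW := by
        refine hco b i ?_ _ hprime (mem_pr.2 hdb.2) (mem_pr.2 h4.2)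
        rintro rfl
        exact hi (Finset.mem_singleton_self _)
      rw [mem_pr, map_ofNat] at h5
      exact ⟨num_mem hOW 2, h5⟩) (Finset.univ.erase b) (by
      intro i hi
      rw [Finset.mem_singleton]
      exact Finset.ne_of_mem_erase hi)
    have h3 : (Set.range (algebraMap O K) ∪ {lx W (x b), ly W (C b).r (x b) (y b)} ∪
        GJ W C x y (Finset.univ.erase b : Finset ι)) = HG W C x y := by
      ext t
      constructor
      · rintro ((ht | ht) | ⟨i, -, ht⟩)
        · exact Or.inl ht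
        · exact Or.inr ⟨b, ht⟩
        · exact Or.inr ⟨i, ht⟩
      · rintro (ht | ⟨i, ht⟩)
        · exact Or.inl (Or.inl ht)
        · by_cases hi : i = b
          · subst hi
            exact Or.inl (Or.inr ht)
          · exact Or.inr ⟨i, Finset.mem_coe.2 (Finset.mem_erase.2 ⟨hi, Finset.mem_univ _⟩), ht⟩
    rw [h3] at h1
    exact h1.reg
  · push Not at hb
    have hrW : Set.range (algebraMap O K) ⊆ (W : Set K) := by
      rintro _ ⟨o, rfl⟩
      exact hOW o
    obtain ⟨κ, _, p, h1, -⟩ := hyp_chain hC hE hOW hOE hx ∅ (Set.range (algebraMap O K)) hrW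
      le_rfl (by
      rintro s - _ ⟨o, rfl⟩
      exact hOE _ o) (regP_empty (Subring.closure_le.2 hrW) (by
        rw [hcr]; exact (base_reg hO W hOW).1)) ∅ (fun i hi => absurd hi (Set.notMem_empty i))
      (fun i _ => hb i) Finset.univ (by simp)
    have h3 : (Set.range (algebraMap O K) ∪ GJ W C x y (Finset.univ : Finset ι)) = HG W C x y := by
      ext t
      simp [HG, GJ]
    rw [h3] at h1
    exact h1.reg

/-- The centre is regular. -/
theorem hyp_quot [DecidableEq ι] [Fintype ι] [IsDedekindDomain O] [Algebra O E]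
    [IsScalarTower O E K] (hO : Function.Injective (algebraMap O K))
    (hx : AlgebraicIndependent E x) (hC : ∀ i, (C i).IsDeg) (hE : ∀ i, Pt (C i) (x i) (y i))
    (hun : ∀ 𝔭 : Ideal O, 𝔭.IsPrime → (2 : O) ∈ 𝔭 → (2 : O) ∉ 𝔭 ^ 2)
    (hOW : ∀ o, algebraMap O K o ∈ W) (h2 : Nn W (2 : K))
    (hsm2 : ∀ i, SmP (lc W (C i) (x i)) (lx W (x i)) (ly W (C i).r (x i) (y i)) W)
    (P : Set ι)
    (hP : ∀ i ∈ P, Nn W (ly W (C i).r (x i) (y i)) ∧
      ¬ Nn W (aeval (lx W (x i)) (derivative (lc W (C i) (x i)).h) *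
      ly W (C i).r (x i) (y i) - aeval (lx W (x i)) (derivative (lc W (C i) (x i)).f))) :
    ∃ (κ : Type) (_ : Fintype κ) (p : κ → K),
      RegP W.toSubring (lo W.toSubring (Subring.closure (HG W C x y))) p ∧
        Set.range p = {2} ∪ {t | ∃ i ∈ P, t = ly W (C i).r (x i) (y i)} := by
  classical
  have hOE : ∀ s o, algebraMap O K o ∈ LF E x s := by
    intro s o
    rw [IsScalarTower.algebraMap_apply O E K]
    exact algebraMap_mem_LF _
  have hprime := pr_prime (O := O) W hOW
  have hcr : Subring.closure (Set.range (algebraMap O K)) = (algebraMap O K).range := by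
    rw [← RingHom.coe_range]
    exact Subring.closure_eq _
  have hrW : Set.range (algebraMap O K) ⊆ (W : Set K) := by
    rintro _ ⟨o, rfl⟩
    exact hOW o
  have h2p : (2 : O) ∈ pr O W hOW := by
    rw [mem_pr, map_ofNat]
    exact h2.2
  have hR0 := (base_reg hO W hOW).2 2 h2p (hun _ hprime h2p)
  rw [← hcr] at hR0
  obtain ⟨κ, hκ, p, h1, h4⟩ := hyp_chain hC hE hOW hOE hx ∅ (Set.range (algebraMap O K)) hrW
      le_rfl (by
      rintro s - _ ⟨o, rfl⟩
      exact hOE _ o) hR0 P (fun i hi _ => (hP i hi).2)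
      (fun i _ => hsm2 i) Finset.univ (by simp)
  have h3 : (Set.range (algebraMap O K) ∪ GJ W C x y (Finset.univ : Finset ι)) = HG W C x y := by
    ext t
    simp [HG, GJ]
  rw [h3] at h1
  refine ⟨κ, hκ, p, h1, ?_⟩
  rw [h4]
  ext t
  simp [map_ofNat]

end Pool.Agent.X269.HP
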