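import Pool.Agent.X269.HP.Main

/-!
# Rings of integers are Jacobson rings
-/

set_option autoImplicit false

namespace Pool.Agent.X269.HP

open scoped NumberField

lemma jacZ : IsJacobsonRing ℤ := by
  rw [isJacobsonRing_iff_prime_eq]
  intro P hP
  by_cases h : P = ⊥
  · subst h
    rw [eq_bot_iff]
    intro a ha
    rw [Ideal.mem_bot]
    by_contra ha0
    obtain ⟨p, hp1, hp⟩ := Nat.exists_infinite_primes (a.natAbs + 1)
    have hmax : (Ideal.span {(p : ℤ)}).IsMaximal :=
      PrincipalIdealRing.isMaximal_of_irreducible (Nat.prime_iff_prime_int.1 hp).irreducible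
    have h2 : (⊥ : Ideal ℤ).jacobson ≤ Ideal.span {(p : ℤ)} := sInf_le ⟨bot_le, hmax⟩
    have h1 : a ∈ Ideal.span {(p : ℤ)} := h2 ha
    rw [Ideal.mem_span_singleton] at h1
    have h2 := Int.natAbs_dvd_natAbs.2 h1
    have h3 := Nat.le_of_dvd (Int.natAbs_pos.2 ha0) h2
    simp at h3
    omega
  · have hmax : P.IsMaximal := IsPrime.to_maximal_ideal h
    exact Ideal.jacobson_eq_self_of_isMaximal

lemma jacO (E : Type) [Field E] [NumberField E] : IsJacobsonRing (𝓞 E) := by
  have h1 := jacZ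
  exact isJacobsonRing_of_isIntegral (R := ℤ) (S := 𝓞 E)

end Pool.Agent.X269.HP
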