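import Pool.Agent.X269.HP.Pt

/-!
# Regular proper models of the quotients of products of double covers
-/

set_option autoImplicit false

namespace Pool.Agent.X269.HP

open IsLocalRing Pool.Agent.Y223.INV Pool.Agent.H918R2.Quad AlgebraicGeometry CategoryTheory
  Pool.Agent.X269.KP Polynomial

section stable

variable {O K : Type} [CommRing O] [Field K] [Algebra O K] {ι : Type}
  {C : ι → Hyp O} {x y : ι → K} {t : Set ι}

lemma pow_pm {a b : K} (h : a = b ∨ a = -b) (k : ℕ) : a ^ k = b ^ k ∨ a ^ k = -b ^ k := by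
  rcases h with rfl | rfl
  · exact Or.inl rfl
  · rcases Nat.even_or_odd k with h5 | h5
    · exact Or.inl (h5.neg_pow _)
    · exact Or.inr (h5.neg_pow _)

lemma mem_pm {N : Submodule O K} {a b : K} (h : a = b ∨ a = -b) (hb : b ∈ N) : a ∈ N := by
  rcases h with rfl | rfl
  · exact hb
  · exact N.neg_mem hb

lemma HM_stable (hC : ∀ i, (C i).IsDeg) (σ : K ≃ₐ[O] K) (hσx : ∀ i, i ∉ t → σ (x i) = x i)
    (hσy : ∀ i, i ∉ t → σ (y i) = -y i - aeval (x i) (C i).h)
    (hσt : ∀ i ∈ t, (σ (x i) = x i ∨ σ (x i) = -x i) ∧ (σ (y i) = y i ∨ σ (y i) = -y i))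
    (i : ι) : ∀ z ∈ HM C x y i, σ z ∈ HM C x y i := by
  have h0 : σ (0 : K) ∈ HM C x y i := by rw [map_zero]; exact Submodule.zero_mem _
  have hadd : ∀ a b : K, σ a ∈ HM C x y i → σ b ∈ HM C x y i → σ (a + b) ∈ HM C x y i := by
    intro a b ha hb
    rw [map_add]; exact Submodule.add_mem _ ha hb
  have hsm : ∀ (r : O) (a : K), σ a ∈ HM C x y i → σ (algebraMap O K r * a) ∈ HM C x y i := by
    intro r a ha
    rw [map_mul, σ.commutes]
    exact HM_smul ha r
  refine HM_ind h0 hadd hsm ?_ ?_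
  · intro k hk
    rw [map_pow]
    by_cases hi : i ∈ t
    · exact mem_pm (pow_pm (hσt i hi).1 k) (HM_pow hk)
    · rw [hσx i hi]
      exact HM_pow hk
  · by_cases hi : i ∈ t
    · exact mem_pm (hσt i hi).2 HM_y
    · rw [hσy i hi]
      exact Submodule.sub_mem _ (Submodule.neg_mem _ HM_y) (HM_aeval (hC i).2.1)

lemma HC_stable (σ : K ≃ₐ[O] K) (hσx : ∀ i, i ∉ t → σ (x i) = x i)
    (hσy : ∀ i, i ∉ t → σ (y i) = -y i - aeval (x i) (C i).h)
    (hσt : ∀ i ∈ t, (σ (x i) = x i ∨ σ (x i) = -x i) ∧ (σ (y i) = y i ∨ σ (y i) = -y i))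
    (i : ι) : ∀ z ∈ HC C x y t i, σ z ∈ HC C x y t i := by
  classical
  have h0 : σ (0 : K) ∈ HC C x y t i := by rw [map_zero]; exact Submodule.zero_mem _
  have hadd : ∀ a b : K, σ a ∈ HC C x y t i → σ b ∈ HC C x y t i →
      σ (a + b) ∈ HC C x y t i := by
    intro a b ha hb
    rw [map_add]; exact Submodule.add_mem _ ha hb
  have hsm : ∀ (r : O) (a : K), σ a ∈ HC C x y t i →
      σ (algebraMap O K r * a) ∈ HC C x y t i := by
    intro r a ha
    rw [map_mul, σ.commutes, ← Algebra.smul_def]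
    exact Submodule.smul_mem _ r ha
  by_cases hi : i ∈ t
  · have hHC : HC C x y t i = HT C x y i := by rw [HC, if_pos hi]
    rw [hHC] at h0 hadd hsm ⊢
    refine HT_ind h0 hadd hsm ?_ ?_
    · intro k hk
      rw [map_mul, map_ofNat, map_pow]
      have h1 : 2 * σ (x i) ^ k = 2 * x i ^ k ∨ 2 * σ (x i) ^ k = -(2 * x i ^ k) := by
        rcases pow_pm (hσt i hi).1 k with h1 | h1
        · rw [h1]; exact Or.inl rfl
        · rw [h1]; exact Or.inr (by ring)
      exact mem_pm h1 (Submodule.subset_span (Or.inl ⟨k, hk, rfl⟩))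
    · rw [map_mul, map_ofNat]
      have h1 : 2 * σ (y i) = 2 * y i ∨ 2 * σ (y i) = -(2 * y i) := by
        rcases (hσt i hi).2 with h1 | h1
        · rw [h1]; exact Or.inl rfl
        · rw [h1]; exact Or.inr (by ring)
      exact mem_pm h1 (Submodule.subset_span (Or.inr rfl))
  · have hHC : HC C x y t i = HN C x y i := by rw [HC, if_neg hi]
    rw [hHC] at h0 hadd hsm ⊢
    refine HN_ind h0 hadd hsm ?_ ?_ ?_
    · intro k hk
      rw [map_mul, map_ofNat, map_pow, hσx i hi]
      exact Submodule.subset_span (Or.inl ⟨k, hk, rfl⟩)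
    · have h1 := aeval_algHom_apply (σ : K →ₐ[O] K) (x i) (C i).h
      have h3 : (σ : K →ₐ[O] K) (x i) = x i := hσx i hi
      rw [h3] at h1
      have h4 : σ (aeval (x i) (C i).h) = aeval (x i) (C i).h := h1.symm
      rw [h4]
      exact Submodule.subset_span (by simp)
    · rw [hσy i hi]
      exact Submodule.sub_mem _ (Submodule.neg_mem _ (Submodule.subset_span (by simp)))
        (Submodule.subset_span (by simp))

end stable

theorem hyp_main (O E : Type) [CommRing O] [IsDedekindDomain O] [Module.Finite ℤ O] [Field E]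
    [CharZero E] [Algebra O E] [IsFractionRing O E] (h2 : Squarefree (Ideal.span {(2 : O)}))
    {ι : Type} [Fintype ι] [DecidableEq ι] (C : ι → Hyp O) (hC : ∀ i, (C i).IsDeg)
    (hR : ∀ i, (C i).IsReg ∧ (C i).rev.IsReg) (d : ι → O)
    (hd : ∀ i, (C i).IsDisc (d i) ∧ (C i).rev.IsDisc (d i))
    (hco : ∀ i j, i ≠ j → ∀ 𝔭 : Ideal O, 𝔭.IsPrime → d i ∈ 𝔭 → d j ∈ 𝔭 → (2 : O) ∈ 𝔭)
    (t : Set ι) (ht : ∃ i, i ∉ t) (hord : ∀ i, i ∉ t → (C i).IsOrd ∧ (C i).rev.IsOrd)
    (hsmo : ∀ i ∈ t, (C i).IsSmoothTwo ∧ (C i).rev.IsSmoothTwo)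
    (K : Type) [Field K] [Algebra E K] (x y : ι → K) (hx : AlgebraicIndependent E x)
    (hE : ∀ i, y i ^ 2 + aeval (x i) ((C i).h.map (algebraMap O E)) * y i =
      aeval (x i) ((C i).f.map (algebraMap O E)))
    (hK : IntermediateField.adjoin E (Set.range x ∪ Set.range y) = ⊤) (σ : K ≃ₐ[E] K)
    (hσx : ∀ i, i ∉ t → σ (x i) = x i)
    (hσy : ∀ i, i ∉ t → σ (y i) = -y i - aeval (x i) ((C i).h.map (algebraMap O E)))
    (hσt : ∀ i ∈ t, (σ (x i) = x i ∨ σ (x i) = -x i) ∧ (σ (y i) = y i ∨ σ (y i) = -y i))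
    {F : Type} [Field F]
    [Algebra F K] (hF : ∀ x, σ x = x ↔ ∃ f : F, algebraMap F K f = x) :
    ∃ (X' : Scheme.{0}) (_ : IsIntegral X') (g : X' ⟶ Spec (CommRingCat.of ℤ)),
      IsProper g ∧
      (∀ x : X',
        (((Module.finrank (IsLocalRing.ResidueField (X'.presheaf.stalk x))
            (IsLocalRing.CotangentSpace (X'.presheaf.stalk x)) : ℕ∞)) : WithBot ℕ∞)
          = ringKrullDim (X'.presheaf.stalk x)) ∧
      Nonempty (X'.functionField ≃+* F) := by
  classical
  let _ : Algebra O K := ((algebraMap E K).comp (algebraMap O E)).toAlgebra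
  have hst : IsScalarTower O E K := IsScalarTower.of_algebraMap_eq fun o => rfl
  have hO : Function.Injective (algebraMap O K) :=
    (algebraMap E K).injective.comp (IsFractionRing.injective O E)
  -- the structure on `F`
  have hFO : ∀ o : O, ∃ f : F, algebraMap F K f = algebraMap O K o := fun o =>
    (hF _).1 (σ.commutes (algebraMap O E o))
  have hFinj : Function.Injective (algebraMap F K) := (algebraMap F K).injective
  choose φ hφ using hFO
  let φ' : O →+* F :=
    { toFun := φ
      map_one' := hFinj (by rw [hφ, map_one, map_one])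
      map_zero' := hFinj (by rw [hφ, map_zero, map_zero])
      map_mul' := fun x z => hFinj (by rw [hφ, map_mul, map_mul, hφ, hφ])
      map_add' := fun x z => hFinj (by rw [hφ, map_add, map_add, hφ, hφ]) }
  let _ : Algebra O F := φ'.toAlgebra
  have hst' : IsScalarTower O F K := IsScalarTower.of_algebraMap_eq fun o => (hφ o).symm
  have hinj : Function.Injective (algebraMap O F) := by
    intro c d hcd
    apply hO
    rw [IsScalarTower.algebraMap_apply O F K, IsScalarTower.algebraMap_apply O F K, hcd]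
  have hnoe : IsNoetherianRing O := inferInstance
  have hmap : ∀ i (p : O[X]), aeval (x i) (p.map (algebraMap O E)) = aeval (x i) p := fun i p =>
    aeval_map_algebraMap E (x i) p
  have hE' : ∀ i, Pt (C i) (x i) (y i) := by
    intro i
    have h := hE i
    rw [hmap, hmap] at h
    exact h
  -- the involution
  let τ : K ≃ₐ[O] K := σ.restrictScalars O
  have hσx' : ∀ i, i ∉ t → τ (x i) = x i := hσx
  have hσy' : ∀ i, i ∉ t → τ (y i) = -y i - aeval (x i) (C i).h := by
    intro i hi
    have h := hσy i hi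
    rw [hmap] at h
    exact h
  have hσt' : ∀ i ∈ t, (τ (x i) = x i ∨ τ (x i) = -x i) ∧ (τ (y i) = y i ∨ τ (y i) = -y i) := hσt
  have hH : ∀ i, i ∉ t → ∀ p : O[X], τ (aeval (x i) p) = aeval (x i) p := by
    intro i hi p
    have h1 := aeval_algHom_apply (τ : K →ₐ[O] K) (x i) p
    have h3 : (τ : K →ₐ[O] K) (x i) = x i := hσx' i hi
    rw [h3] at h1
    exact h1.symm
  have hpm : ∀ a : K, (τ a = a ∨ τ a = -a) → τ (τ a) = a := by
    rintro a (h | h)
    · rw [h, h]
    · rw [h, map_neg, h, neg_neg]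
  have hσσ : ∀ x, τ (τ x) = x := by
    have h1 : (σ * σ : K ≃ₐ[E] K).toAlgHom = AlgHom.id E K := by
      have h3 : ∀ z ∈ (⊤ : IntermediateField E K), (σ * σ) z = z := by
        intro z hz
        rw [← hK] at hz
        induction hz using IntermediateField.adjoin_induction with
        | mem z hz =>
          rcases hz with ⟨i, rfl⟩ | ⟨i, rfl⟩
          · by_cases hi : i ∈ t
            · exact hpm _ (hσt' i hi).1
            · rw [AlgEquiv.mul_apply, hσx i hi, hσx i hi]
          · by_cases hi : i ∈ t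
            · exact hpm _ (hσt' i hi).2
            · change τ (τ (y i)) = y i
              rw [hσy' i hi, map_sub, map_neg, hσy' i hi, hH i hi]
              ring
        | algebraMap x => exact (σ * σ).commutes x
        | add x z _ _ hx hz => rw [map_add, hx, hz]
        | inv x _ hx => rw [map_inv₀, hx]
        | mul x z _ _ hx hz => rw [map_mul, hx, hz]
      ext x
      exact h3 x trivial
    intro x
    exact DFunLike.congr_fun h1 x
  have hKC : CharZero K := charZero_of_injective_algebraMap (algebraMap E K).injective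
  have h20 : (2 : K) ≠ 0 := by norm_num
  have hσ1 : ∃ x, τ x ≠ x := by
    obtain ⟨i, hi⟩ := ht
    refine ⟨y i, fun h => ?_⟩
    rw [hσy' i hi] at h
    have h1 : aeval (x i) (C i).branch = 0 := by
      rw [branch_eval (hE' i)]
      have h3 : 2 * y i + aeval (x i) (C i).h = 0 := by linear_combination -h
      rw [h3]
      norm_num
    have h3 : (C i).branch = 0 := by
      rw [← hmap] at h1
      have h4 := (transcendental_iff.1 (hx.transcendental i)) _ h1
      exact (Polynomial.map_eq_zero_iff (IsFractionRing.injective O E)).1 h4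
    have h4 : (2 : O[X]) ∉ (⊥ : Ideal O[X]) := by
      rw [Ideal.mem_bot]
      intro h5
      apply h20
      have h6 := congrArg (aeval (x i)) h5
      rwa [map_ofNat, map_zero] at h6
    refine (hR i).1 ⊥ Ideal.isPrime_bot h4 1 (by rw [Ideal.mem_bot]; exact one_ne_zero) ?_
    rw [h3, mul_zero]
    exact Ideal.zero_mem _
  have hF' : ∀ x, τ x = x ↔ ∃ f : F, algebraMap F K f = x := hF
  have hne : Nonempty ι := ⟨ht.choose⟩
  have hM : HasModule O F := by
    refine prod_module2 hO (HM C x y) (HC C x y t) τ hσσ hσ1 hF' ?_ (fun i => HM_one)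
      (HM_stable hC τ hσx' hσy' hσt') (HC_le hC) (HC_stable τ hσx' hσy' hσt') ?_ ?_ ?_
    · intro i
      refine Submodule.fg_span (Set.Finite.union ?_ (Set.finite_singleton _))
      refine ((Finset.range ((C i).r + 1)).finite_toSet.image fun k => x i ^ k).subset ?_
      rintro z ⟨k, hk, rfl⟩
      exact ⟨k, by simp; omega, rfl⟩
    · intro i
      refine ⟨2, ?_, h20⟩
      have h3 : (2 : K) = 2 * x i ^ 0 := by rw [pow_zero, mul_one]
      rw [h3, HC]
      split_ifs
      · exact Submodule.subset_span (Or.inl ⟨0, Nat.zero_le _, rfl⟩)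
      · exact Submodule.subset_span (Or.inl ⟨0, Nat.zero_le _, rfl⟩)
    · -- generation
      rw [eq_top_iff]
      set L := Subfield.closure (Set.range (algebraMap O K) ∪ {z | ∃ i, z ∈ HM C x y i}) with hL
      have hOL : ∀ o : O, algebraMap O K o ∈ L := fun o => Subfield.subset_closure (Or.inl ⟨o, rfl⟩)
      have hEL : ∀ e : E, algebraMap E K e ∈ L := by
        intro e
        obtain ⟨c, d, hd, rfl⟩ := IsFractionRing.div_surjective (A := O) e
        rw [map_div₀]
        exact L.div_mem (hOL c) (hOL d)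
      intro z _
      have hz : z ∈ IntermediateField.adjoin E (Set.range x ∪ Set.range y) := by rw [hK]; trivial
      induction hz using IntermediateField.adjoin_induction with
      | mem z hz =>
        rcases hz with ⟨i, rfl⟩ | ⟨i, rfl⟩
        · refine Subfield.subset_closure (Or.inr ⟨i, ?_⟩)
          have h3 := HM_pow (C := C) (x := x) (y := y) (i := i) (k := 1) (hC i).1
          rwa [pow_one] at h3
        · exact Subfield.subset_closure (Or.inr ⟨i, HM_y⟩)
      | algebraMap x => exact hEL x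
      | add x z _ _ hx hz => exact L.add_mem (hx trivial) (hz trivial)
      | inv x _ hx => exact L.inv_mem (hx trivial)
      | mul x z _ _ hx hz => exact L.mul_mem (hx trivial) (hz trivial)
    · intro W hOW
      refine ⟨fun i => lh W (C i).r (x i), ?_, fun Q hQ => ?_⟩
      · intro i
        refine ⟨?_, lh_ne _, HM_div (T := W.toSubring) hOW (lx_mem _) (ly_mem (hC i) (hE' i) hOW)⟩
        change lh W (C i).r (x i) ∈ HM C x y i
        unfold lh
        split_ifs
        · exact HM_one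
        · exact HM_pow le_rfl
      · exact hyp_pt hO hx hC hE' hR d hd hco (fun 𝔭 h𝔭 _ => notMem_sq h2 𝔭 h𝔭) ht hord hsmo τ
          hσx' hσy' hσt' hσσ hOW hQ
  exact model_of_hasModule hinj hM

/-- The square of a maximal ideal is primary. -/
lemma mem_sq_of_max {R : Type} [CommRing R] {𝔪 : Ideal R} (hmax : 𝔪.IsMaximal) {s c : R}
    (hs : s ∉ 𝔪) (h : s * c ∈ 𝔪 ^ 2) : c ∈ 𝔪 ^ 2 := by
  have h9 : (𝔪 ^ 2).IsPrimary := by
    apply Ideal.isPrimary_of_isMaximal_radical
    rw [Ideal.radical_pow _ two_ne_zero, hmax.isPrime.radical]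
    exact hmax
  have h10 := (Ideal.isPrimary_iff.1 h9).2 (x := c) (y := s) (by rwa [mul_comm])
  rcases h10 with h10 | h10
  · exact h10
  · rw [Ideal.radical_pow _ two_ne_zero, hmax.isPrime.radical] at h10
    exact absurd h10 hs

/-- Maximal ideals suffice. -/
lemma isReg_of_max {O : Type} [CommRing O] [IsDomain O] [IsJacobsonRing O] {C : Hyp O}
    (h : ∀ 𝔪 : Ideal O[X], 𝔪.IsMaximal → (2 : O[X]) ∉ 𝔪 → C.branch ∉ 𝔪 ^ 2) : C.IsReg := by
  intro 𝔮 h𝔮 h2 s hs hcon
  have h1 : (2 : O[X]) * s ∉ 𝔮 := fun h3 => (h𝔮.mem_or_mem h3).elim h2 hs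
  have hJ : IsJacobsonRing O[X] := inferInstance
  have h3 := hJ.out h𝔮.isRadical
  have h4 : (2 : O[X]) * s ∉ 𝔮.jacobson := by rwa [h3]
  rw [Ideal.jacobson, Submodule.mem_sInf] at h4
  push Not at h4
  obtain ⟨𝔪, ⟨hle, hmax⟩, h5⟩ := h4
  have h6 : (2 : O[X]) ∉ 𝔪 := fun h7 => h5 (Ideal.mul_mem_right _ _ h7)
  have h7 : s ∉ 𝔪 := fun h8 => h5 (Ideal.mul_mem_left _ _ h8)
  refine h 𝔪 hmax h6 ?_
  have h8 : s * C.branch ∈ 𝔪 ^ 2 := Ideal.pow_right_mono hle 2 hcon
  exact mem_sq_of_max hmax h7 h8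

end Pool.Agent.X269.HP
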