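import Pool.Agent.X269.HP.Root

/-!
# Involutions at fixed schemes: a criterion
-/

set_option autoImplicit false

namespace Pool.Agent.X269.HP

open IsLocalRing Pool.Agent.Y223.INV Pool.Agent.W418.LU2 Pool.Agent.TH188.QS Pool.Agent.X269.KP

variable {O K : Type} [CommRing O] [Field K] [Algebra O K]

/-- Criterion. -/
theorem nondeg2 (σ : K ≃ₐ[O] K) (hσ : ∀ x, σ (σ x) = x) {Q : Subring K}
    (hreg : IsRegularLocalRing Q) {D : Set K} (hQ : ∀ x ∈ Q, ∃ a ∈ Subring.closure D,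
      ∃ b ∈ Subring.closure D, ∃ c ∈ Q, b * c = 1 ∧ x = a * c) (hDQ : D ⊆ Q)
    {𝔞 : Ideal Q} (h𝔞 : 𝔞 ≤ maximalIdeal Q) (h2 : (2 : Q) ∈ 𝔞) (hst : ∀ x ∈ Q, σ x ∈ Q)
    (hδ : ∀ x (hx : x ∈ D), (⟨σ x - x, Q.sub_mem (hst x (hDQ hx)) (hDQ hx)⟩ : Q) ∈ 𝔞)
    (G : Set Q) (hG : 𝔞 = Ideal.span G)
    (hδG : ∀ x ∈ G, (⟨σ (x : K) - (x : K), Q.sub_mem (hst x x.2) x.2⟩ : Q) ∈ 𝔞 ^ 2)
    {ι : Type} [Fintype ι] (z : ι → Q) (hz : ∀ i, z i ∈ 𝔞)
    (hz𝔞 : 𝔞 ≤ Ideal.span {2} ⊔ Ideal.span (Set.range z) ⊔ 𝔞 ^ 2)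
    (hzz : ∀ i, z i ^ 2 ∈ Ideal.span {(2 : Q)} * 𝔞 ⊔ Ideal.span {y : Q | ∃ x ∈ 𝔞,
      (y : K) = σ (x : K) - (x : K)} ⊔ 𝔞 ^ 3) :
    NondegenerateWild σ Q 𝔞 := by
  classical
  let δ : Q → Q := fun x => ⟨σ x - x, Q.sub_mem (hst x x.2) x.2⟩
  have hδv : ∀ x : Q, (δ x : K) = σ (x : K) - (x : K) := fun x => rfl
  -- the image of `δ`
  have hmul : ∀ x y : Q, δ (x * y) = δ x * ⟨σ y, hst y y.2⟩ + x * δ y := by
    intro x y
    apply Subtype.ext
    change σ ((x : K) * y) - (x : K) * y = (σ (x : K) - x) * σ (y : K) + x * (σ (y : K) - y)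
    rw [map_mul]
    ring
  have hcl : ∀ x (hx : x ∈ Subring.closure D), ∃ hxQ : x ∈ Q, δ ⟨x, hxQ⟩ ∈ 𝔞 := by
    intro x hx
    have hle : Subring.closure D ≤ Q := Subring.closure_le.2 hDQ
    refine ⟨hle hx, ?_⟩
    induction hx using Subring.closure_induction with
    | mem x hx => exact hδ x hx
    | zero =>
      have : δ ⟨0, Q.zero_mem⟩ = 0 := by
        apply Subtype.ext
        change σ (0 : K) - 0 = 0
        rw [map_zero, sub_zero]
      rw [this]
      exact Ideal.zero_mem _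
    | one =>
      have : δ ⟨1, Q.one_mem⟩ = 0 := by
        apply Subtype.ext
        change σ (1 : K) - 1 = 0
        rw [map_one, sub_self]
      rw [this]
      exact Ideal.zero_mem _
    | add x y hx hy h1 h3 =>
      have : δ ⟨x + y, Q.add_mem (hle hx) (hle hy)⟩ = δ ⟨x, hle hx⟩ + δ ⟨y, hle hy⟩ := by
        apply Subtype.ext
        change σ (x + y) - (x + y) = (σ x - x) + (σ y - y)
        rw [map_add]
        ring
      rw [this]
      exact Ideal.add_mem _ h1 h3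
    | neg x hx h1 =>
      have : δ ⟨-x, Q.neg_mem (hle hx)⟩ = - δ ⟨x, hle hx⟩ := by
        apply Subtype.ext
        change σ (-x) - (-x) = -(σ x - x)
        rw [map_neg]
        ring
      rw [this]
      exact (Ideal.neg_mem_iff _).2 h1
    | mul x y hx hy h1 h3 =>
      have : δ ⟨x * y, Q.mul_mem (hle hx) (hle hy)⟩ =
          δ ⟨x, hle hx⟩ * ⟨σ y, hst y (hle hy)⟩ + ⟨x, hle hx⟩ * δ ⟨y, hle hy⟩ :=
        hmul ⟨x, hle hx⟩ ⟨y, hle hy⟩
      rw [this]
      exact Ideal.add_mem _ (Ideal.mul_mem_right _ _ h1) (Ideal.mul_mem_left _ _ h3)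
  have hδ1 : ∀ x : Q, δ x ∈ 𝔞 := by
    intro x
    obtain ⟨a, ha, b, hb, c, hc, hbc, hxe⟩ := hQ x x.2
    obtain ⟨haQ, ha'⟩ := hcl a ha
    obtain ⟨hbQ, hb'⟩ := hcl b hb
    -- `δ b c` from `δ (b c) = 0`
    have h3 : δ (⟨b, hbQ⟩ * ⟨c, hc⟩) = 0 := by
      apply Subtype.ext
      change σ (b * c) - b * c = 0
      rw [hbc, map_one, sub_self]
    rw [hmul] at h3
    have h4 : (⟨b, hbQ⟩ : Q) * δ ⟨c, hc⟩ ∈ 𝔞 := by
      rw [eq_neg_of_add_eq_zero_right h3]
      exact (Ideal.neg_mem_iff _).2 (Ideal.mul_mem_right _ _ hb')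
    have h5 : δ ⟨c, hc⟩ ∈ 𝔞 := by
      have h6 := Ideal.mul_mem_left 𝔞 (⟨c, hc⟩ : Q) h4
      have h7 : (⟨c, hc⟩ : Q) * (⟨b, hbQ⟩ * δ ⟨c, hc⟩) = δ ⟨c, hc⟩ := by
        apply Subtype.ext
        change c * (b * _) = _
        rw [← mul_assoc, mul_comm c b, hbc, one_mul]
      rwa [h7] at h6
    have h8 : x = ⟨a, haQ⟩ * ⟨c, hc⟩ := Subtype.ext hxe
    rw [h8, hmul]
    exact Ideal.add_mem _ (Ideal.mul_mem_right _ _ ha') (Ideal.mul_mem_left _ _ h5)
  have h21 : 𝔞 ^ 2 ≤ 𝔞 := Ideal.pow_le_self two_ne_zero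
  have hδ2 : ∀ x ∈ 𝔞, δ x ∈ 𝔞 ^ 2 := by
    intro x hx
    rw [hG] at hx
    induction hx using Submodule.span_induction with
    | mem x hx => exact hδG x hx
    | zero =>
      have : δ 0 = 0 := by
        apply Subtype.ext
        change σ (0 : K) - 0 = 0
        rw [map_zero, sub_zero]
      rw [this]
      exact Ideal.zero_mem _
    | add x y _ _ h1 h3 =>
      have : δ (x + y) = δ x + δ y := by
        apply Subtype.ext
        change σ ((x : K) + y) - (x + y) = (σ (x : K) - x) + (σ (y : K) - y)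
        rw [map_add]
        ring
      rw [this]
      exact Ideal.add_mem _ h1 h3
    | smul r x hx h1 =>
      have hx' : x ∈ 𝔞 := by rw [hG]; exact hx
      rw [smul_eq_mul, hmul]
      refine Ideal.add_mem _ ?_ (Ideal.mul_mem_left _ _ h1)
      have h3 : (⟨σ (x : K), hst x x.2⟩ : Q) = x + δ x := by
        apply Subtype.ext
        change σ (x : K) = x + (σ (x : K) - x)
        ring
      rw [h3, pow_two]
      exact Ideal.mul_mem_mul (hδ1 r) (𝔞.add_mem hx' (hδ1 x))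
  refine ⟨1, -2, δ, one_ne_zero, ?_, ?_, ?_, hδ1, hδ2,
    Fintype.card ι, ?_⟩
  · intro x
    rw [hδv]
    change σ (x : K) = x + (1 : K) * (σ (x : K) - x)
    ring
  · intro x
    apply Subtype.ext
    change σ (σ (x : K) - x) - (σ (x : K) - x) = -2 * (σ (x : K) - x)
    rw [map_sub, hσ]
    ring
  · exact (Ideal.neg_mem_iff _).2 h2
  · set n := Fintype.card ι with hn
    set J : Ideal Q := Ideal.span {-2} ⊔ Ideal.span (Set.range δ) with hJ
    have h2J : Ideal.span {(2 : Q)} ≤ J := by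
      rw [Ideal.span_singleton_le_iff_mem]
      have h3 : (-2 : Q) ∈ J := Ideal.mem_sup_left (Ideal.mem_span_singleton_self _)
      have h4 := (Ideal.neg_mem_iff J).2 h3
      rwa [neg_neg] at h4
    set B : Ideal Q := J * 𝔞 ^ (n + 1) ⊔ Ideal.span (δ '' 𝔞) * 𝔞 ^ n with hB
    have hnoe : IsNoetherianRing Q := inferInstance
    have key : 𝔞 ^ (n + 2) ≤ B ⊔ 𝔞 • 𝔞 ^ (n + 2) := by
      have e3 : 𝔞 • 𝔞 ^ (n + 2) = 𝔞 ^ (n + 3) := by
        rw [smul_eq_mul, ← pow_succ']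
      rw [e3]
      set Z := Ideal.span (Set.range z) with hZ
      set C : Ideal Q := Ideal.span {2} ⊔ 𝔞 ^ 2 with hC
      have hZa : Z ≤ 𝔞 := by
        rw [hZ, Ideal.span_le]
        rintro _ ⟨i, rfl⟩
        exact hz i
      have hCa : C ≤ 𝔞 := sup_le (by rwa [Ideal.span_singleton_le_iff_mem]) h21
      have h3 : 𝔞 ≤ Z ⊔ C := by
        refine hz𝔞.trans ?_
        rw [hC]
        refine sup_le (sup_le ?_ le_sup_left) ?_
        · exact le_sup_left.trans le_sup_right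
        · exact le_sup_right.trans le_sup_right
      have h4 : 𝔞 ^ (n + 2) ≤ Z ^ (n + 2) ⊔ C * 𝔞 ^ (n + 1) := by
        refine (Ideal.pow_right_mono h3 _).trans ((sup_pow_le Z C (n + 1)).trans ?_)
        exact sup_le_sup le_rfl (Ideal.mul_mono_right (Ideal.pow_right_mono
          (sup_le hZa hCa) _))
      refine h4.trans (sup_le ?_ ?_)
      · have h5 := span_pow_le z Finset.univ (n + 2) (by rw [Finset.card_univ]; omega)
        rw [Finset.coe_univ, Set.image_univ] at h5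
        refine h5.trans ?_
        have e1 : n + 2 - 2 = n := by omega
        rw [e1]
        have h6 : Ideal.span (Set.range fun i => z i ^ 2) ≤
            Ideal.span {(2 : Q)} * 𝔞 ⊔ Ideal.span (δ '' 𝔞) ⊔ 𝔞 ^ 3 := by
          rw [Ideal.span_le]
          rintro _ ⟨i, rfl⟩
          have h7 : Ideal.span {y : Q | ∃ x ∈ 𝔞, (y : K) = σ (x : K) - (x : K)} ≤
              Ideal.span (δ '' 𝔞) := by
            refine Ideal.span_mono ?_
            rintro y ⟨x, hx, hy⟩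
            exact ⟨x, hx, Subtype.ext hy.symm⟩
          have h8 : Ideal.span {(2 : Q)} * 𝔞 ⊔ Ideal.span {y : Q | ∃ x ∈ 𝔞,
              (y : K) = σ (x : K) - (x : K)} ⊔ 𝔞 ^ 3 ≤
              Ideal.span {(2 : Q)} * 𝔞 ⊔ Ideal.span (δ '' 𝔞) ⊔ 𝔞 ^ 3 :=
            sup_le_sup (sup_le_sup le_rfl h7) le_rfl
          exact h8 (hzz i)
        refine (Ideal.mul_mono h6 (Ideal.pow_right_mono hZa n)).trans ?_
        rw [Ideal.sup_mul, Ideal.sup_mul]
        refine sup_le (sup_le ?_ ?_) ?_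
        · rw [mul_assoc, ← pow_succ']
          exact (Ideal.mul_mono_left h2J).trans (le_sup_left.trans le_sup_left)
        · exact le_sup_right.trans le_sup_left
        · rw [← pow_add]
          refine le_trans (Ideal.pow_le_pow_right (by omega)) le_sup_right
      · rw [hC, Ideal.sup_mul]
        refine sup_le ?_ ?_
        · exact (Ideal.mul_mono_left h2J).trans (le_sup_left.trans le_sup_left)
        · rw [← pow_add]
          refine le_trans (Ideal.pow_le_pow_right (by omega)) le_sup_right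
    refine Submodule.le_of_le_smul_of_le_jacobson_bot (IsNoetherian.noetherian _) ?_ key
    refine h𝔞.trans ?_
    rw [IsLocalRing.jacobson_eq_maximalIdeal]
    exact bot_ne_top

end Pool.Agent.X269.HP
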