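import Pool.Agent.X269.HP.Nondeg

/-!
# Quotients of products by the diagonal involution
-/

set_option autoImplicit false

namespace Pool.Agent.X269.HP

open IsLocalRing Pool.Agent.Y223.INV Pool.Agent.W418.LU2 Pool.Agent.TH188.QS
  Pool.Agent.H918R2.Quad Pool.Agent.TH188.ARC Pool.Agent.X269.KP

variable {O K : Type} [CommRing O] [Field K] [Algebra O K] {ι : Type} [DecidableEq ι] [Fintype ι]

theorem prod_module2 {F : Type} [IsDomain O] [IsNoetherianRing O] [Field F] [Algebra O F]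
    [Algebra F K] [IsScalarTower O F K] (hO : Function.Injective (algebraMap O K)) [Nonempty ι]
    (M N : ι → Submodule O K) (σ : K ≃ₐ[O] K) (hσ : ∀ x, σ (σ x) = x) (hσ1 : ∃ x, σ x ≠ x)
    (hF : ∀ x, σ x = x ↔ ∃ f : F, algebraMap F K f = x)
    (hM : ∀ i, (M i).FG) (h1 : ∀ i, (1 : K) ∈ M i) (hσM : ∀ i, ∀ x ∈ M i, σ x ∈ M i)
    (hNM : ∀ i, N i ≤ M i) (hσN : ∀ i, ∀ x ∈ N i, σ x ∈ N i) (hN0 : ∀ i, ∃ x ∈ N i, x ≠ 0)
    (hgen : Subfield.closure (Set.range (algebraMap O K) ∪ {x | ∃ i, x ∈ M i}) = ⊤)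
    (hloc : ∀ W : ValuationSubring K, (∀ o, algebraMap O K o ∈ W) → ∃ h : ι → K,
      (∀ i, h i ∈ M i ∧ h i ≠ 0 ∧ ∀ x ∈ M i, x / h i ∈ W) ∧
      ∀ Q, Q = lo W.toSubring (Subring.closure (DS M h)) → ∃ _ : IsRegularLocalRing Q,
        ∀ 𝔞 : Ideal Q, 𝔞 = Ideal.span {y : Q | ∃ i, ∃ n ∈ N i, (y : K) = n / h i} →
          (𝔞 ≠ ⊤ → IsRegularLocalRing (Q ⧸ 𝔞)) ∧
          (¬ IsUnit (2 : Q) → IsFixed σ Q → 𝔞 ≠ ⊤ ∧ NondegenerateWild σ Q 𝔞)) :
    HasModule O F := by
  set Mt : Submodule O K := ∏ i, M i with hMt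
  have hMtfg : Mt.FG := prod_fg M hM _
  have hle := PI_le hNM
  have h1t : (1 : K) ∈ Mt := by
    have h2 := prod_mem_prod M (fun _ => (1 : K)) Finset.univ fun i _ => h1 i
    rwa [Finset.prod_const_one] at h2
  have hMile : ∀ i, ∀ x ∈ M i, x ∈ Mt := by
    intro i x hx
    have h2 := prod_mem_prod M (Function.update (fun _ => (1 : K)) i x) Finset.univ (by
      intro j _
      by_cases hj : j = i
      · subst hj
        rwa [Function.update_self]
      · rw [Function.update_of_ne hj]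
        exact h1 j)
    rw [Finset.prod_update_of_mem (Finset.mem_univ i), Finset.prod_const_one, mul_one] at h2
    exact h2
  have hcl1 : Subfield.closure (chart O Mt (1 : K) : Set K) = ⊤ := by
    rw [eq_top_iff, ← hgen, Subfield.closure_le]
    rintro x (⟨o, rfl⟩ | ⟨i, hx⟩)
    · exact Subfield.subset_closure (Subalgebra.algebraMap_mem _ o)
    · exact Subfield.subset_closure (Algebra.subset_adjoin ⟨x, hMile i x hx, by simp⟩)
  have hne' : ∃ x ∈ Mt, σ x ≠ x := by
    by_contra hcon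
    push Not at hcon
    obtain ⟨x, hx⟩ := hσ1
    apply hx
    let L : Subfield K := (RingHom.eqLocusField (σ : K →+* K) (RingHom.id K))
    have hL : ∀ x, x ∈ L ↔ σ x = x := fun x => Iff.rfl
    have h2 : (⊤ : Subfield K) ≤ L := by
      rw [← hgen, Subfield.closure_le]
      rintro x (⟨o, rfl⟩ | ⟨i, hx⟩)
      · exact (hL _).2 (σ.commutes o)
      · exact (hL _).2 (hcon x (hMile i x hx))
    exact (hL x).1 (h2 trivial)
  have hN0' := hN0
  choose n₀ hn₀ hn₀0 using hN0'
  obtain ⟨i₀⟩ := ‹Nonempty ι›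
  refine inv_hasModule σ hσ hF (M := Mt) (I := PI M N) hMtfg (fg_of_le hle hMtfg)
    (prod_stable M σ hσM _) ?_ hle ?_ ?_ ?_ ?_
  · refine PI_ind ?_ ?_ ?_
    · rw [map_zero]; exact Submodule.zero_mem _
    · intro x y hx hy
      rw [map_add]; exact Submodule.add_mem _ hx hy
    · intro i x hx y hy
      rw [map_mul]
      exact (le_iSup (fun i => N i * ∏ j ∈ Finset.univ.erase i, M j) i)
        (Submodule.mul_mem_mul (hσN i x hx) (prod_stable M σ hσM _ y hy))
  · refine ⟨n₀ i₀, (le_iSup (fun i => N i * ∏ j ∈ Finset.univ.erase i, M j) i₀) ?_, hn₀0 i₀⟩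
    rw [← mul_one (n₀ i₀)]
    refine Submodule.mul_mem_mul (hn₀ i₀) ?_
    have h2 := prod_mem_prod M (fun _ => (1 : K)) (Finset.univ.erase i₀) fun i _ => h1 i
    rwa [Finset.prod_const_one] at h2
  · obtain ⟨x, hx, hx1⟩ := hne'
    refine ⟨x, hx, 1, h1t, ?_⟩
    rw [wd, mul_one, map_one, mul_one]
    exact sub_ne_zero.2 hx1
  · intro m hm hm0
    refine closure_chart (D := 1) (M := Mt) (m := 1) hO h1t one_ne_zero hcl1 le_rfl ?_ m hm0
    intro y hy
    rw [pow_one] at hy
    exact ⟨1, one_ne_zero, by rwa [one_smul]⟩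
  · intro W hOW
    obtain ⟨h, hh, hQ⟩ := hloc W hOW
    set m := ∏ i, h i with hm
    have hm0 : m ≠ 0 := Finset.prod_ne_zero_iff.2 fun i _ => (hh i).2.1
    have hmM : m ∈ Mt := prod_mem_prod M h _ fun i _ => (hh i).1
    have hne : ∀ i, (∏ j ∈ Finset.univ.erase i, h j) ≠ 0 := fun i =>
      Finset.prod_ne_zero_iff.2 fun j _ => (hh j).2.1
    have hmi : ∀ i, m = h i * ∏ j ∈ Finset.univ.erase i, h j := fun i => by
      rw [hm, ← Finset.mul_prod_erase Finset.univ h (Finset.mem_univ i)]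
    have hsplit : ∀ i (x : K), x / h i = (x * ∏ j ∈ Finset.univ.erase i, h j) / m := by
      intro i x
      rw [hmi i, mul_div_mul_right _ _ (hne i)]
    set A : Subalgebra O K := Algebra.adjoin O {y | ∃ i, ∃ x ∈ M i, y = x / h i} with hA
    have hAm : ∀ i, ∀ x ∈ M i, x / h i ∈ A := fun i x hx => Algebra.subset_adjoin ⟨i, x, hx, rfl⟩
    have hchart : chart O Mt m = A := by
      apply le_antisymm
      · refine Algebra.adjoin_le ?_
        rintro _ ⟨x, hx, rfl⟩
        exact prod_div_mem M h A Finset.univ (fun i _ => hAm i) x hx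
      · refine Algebra.adjoin_le ?_
        rintro _ ⟨i, x, hx, rfl⟩
        refine Algebra.subset_adjoin ⟨x * ∏ j ∈ Finset.univ.erase i, h j, ?_, hsplit i x⟩
        change _ ∈ ∏ i, M i
        rw [← Finset.mul_prod_erase Finset.univ M (Finset.mem_univ i)]
        exact Submodule.mul_mem_mul hx (prod_mem_prod M h _ fun j _ => (hh j).1)
    have hchart' : (chart O Mt m).toSubring = Subring.closure (DS M h) := by
      rw [hchart, hA, Algebra.adjoin_eq_ring_closure]
      rfl
    have hMW : ∀ x ∈ Mt, x / m ∈ W := by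
      intro x hx
      have h3 : x / m ∈ A := prod_div_mem M h A Finset.univ (fun i _ => hAm i) x hx
      have h4 : A.toSubring ≤ W.toSubring := by
        rw [hA, Algebra.adjoin_eq_ring_closure, Subring.closure_le]
        rintro _ (⟨o, rfl⟩ | ⟨i, x, hx, rfl⟩)
        · exact hOW o
        · exact (hh i).2.2 x hx
      exact h4 h3
    have hcW : (chart O Mt m).toSubring ≤ W.toSubring := chart_le_V hOW hMW
    set Q := lo W.toSubring (chart O Mt m).toSubring with hQdef
    obtain ⟨hreg, hI⟩ := hQ Q (by rw [hQdef, hchart'])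
    have hQW : Q ≤ W.toSubring := lo_le hcW
    have hAQ : ∀ x ∈ A, x ∈ Q := by
      intro x hx
      refine le_lo _ _ ?_
      rw [hchart]
      exact hx
    have hloQ : IsLocalRing Q := hreg.toIsLocalRing
    set 𝔞 : Ideal Q := Ideal.span {y : Q | ∃ n ∈ PI M N, (y : K) = n / m} with h𝔞
    have h𝔞' : 𝔞 = Ideal.span {y : Q | ∃ i, ∃ n ∈ N i, (y : K) = n / h i} := by
      apply le_antisymm
      · rw [h𝔞, Ideal.span_le]
        rintro y ⟨n, hn, hy⟩
        have key : ∀ n ∈ PI M N, Im (Ideal.span {y : Q | ∃ i, ∃ n ∈ N i, (y : K) = n / h i})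
            (n / m) := by
          refine PI_ind ?_ ?_ ?_
          · rw [zero_div]; exact Im.zero
          · intro x y hx hy
            rw [add_div]; exact hx.add hy
          · intro i x hx y hy
            have h3 : x * y / m = (y / ∏ j ∈ Finset.univ.erase i, h j) * (x / h i) := by
              rw [hmi i, div_mul_div_comm, mul_comm x y, mul_comm (h i)]
            rw [h3]
            refine Im.mul_left (hAQ _ ?_) ?_
            · exact prod_div_mem M h A _ (fun i _ => hAm i) y hy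
            · exact ⟨⟨x / h i, hAQ _ (hAm i x (hNM i hx))⟩, Ideal.subset_span ⟨i, x, hx, rfl⟩, rfl⟩
        have h4 := key n hn
        rw [← hy] at h4
        exact h4.mk y.2
      · rw [Ideal.span_le]
        rintro y ⟨i, n, hn, hy⟩
        refine Ideal.subset_span ⟨n * ∏ j ∈ Finset.univ.erase i, h j, ?_, by
          rw [hy, hsplit i n]⟩
        exact (le_iSup (fun i => N i * ∏ j ∈ Finset.univ.erase i, M j) i)
          (Submodule.mul_mem_mul hn (prod_mem_prod M h _ fun j _ => (hh j).1))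
    obtain ⟨hI1, hI2⟩ := hI 𝔞 h𝔞'
    refine ⟨m, hmM, hm0, hMW, ?_⟩
    refine cond_of hQW (ic_lo hcW) hreg ?_ ?_ hm0 h𝔞 hσ ?_ ?_ ?_ ?_
    · intro n hn
      exact hAQ _ (prod_div_mem M h A Finset.univ (fun i _ => hAm i) n (hle hn))
    · refine ⟨n₀ i₀, (le_iSup (fun i => N i * ∏ j ∈ Finset.univ.erase i, M j) i₀) ?_, hn₀0 i₀⟩
      rw [← mul_one (n₀ i₀)]
      refine Submodule.mul_mem_mul (hn₀ i₀) ?_
      have h2 := prod_mem_prod M (fun _ => (1 : K)) (Finset.univ.erase i₀) fun i _ => h1 i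
      rwa [Finset.prod_const_one] at h2
    · by_contra hcon
      push Not at hcon
      obtain ⟨x, hx, hxσ⟩ := hne'
      apply hxσ
      have h2 : x = (x / m) / (1 / m) := by
        field_simp
      have h3 : ∀ y ∈ Mt, σ (y / m) = y / m := fun y hy =>
        hcon _ (hAQ _ (prod_div_mem M h A Finset.univ (fun i _ => hAm i) y hy))
      rw [h2, map_div₀, h3 x hx, h3 1 h1t]
    · by_cases h3 : 𝔞 = ⊤
      · exact Or.inl h3
      · exact Or.inr (hI1 h3)
    · intro h3 h4 h5
      exact absurd h5 (hI2 h3 h4).1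
    · intro h3 h4 _
      exact (hI2 h3 h4).2

end Pool.Agent.X269.HP
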