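import Pool.Agent.X269.HP.HReg

/-!
# Products of double covers: the conditions at the points
-/

set_option autoImplicit false

namespace Pool.Agent.X269.HP

open IsLocalRing Pool.Agent.Y223.INV Pool.Agent.W418.LU2 Pool.Agent.TH188.QS
  Pool.Agent.H918R2.Quad Pool.Agent.TH188.ARC Pool.Agent.X269.KP Polynomial

variable {O K : Type} [CommRing O] [Field K] [Algebra O K] {W : ValuationSubring K}
variable {ι : Type} {C : ι → Hyp O} {x y : ι → K} {Q : Subring K} {t : Set ι}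

open Classical in
/-- The module of the centre. -/
noncomputable def HC (C : ι → Hyp O) (x y : ι → K) (t : Set ι) (i : ι) : Submodule O K :=
  if i ∈ t then HT C x y i else HN C x y i

lemma HC_le (hC : ∀ i, (C i).IsDeg) (i : ι) : HC C x y t i ≤ HM C x y i := by
  rw [HC]
  split_ifs
  · exact HT_le
  · exact HN_le (hC i)

lemma h_div {C : Hyp O} (hC : C.IsDeg) (x : K) :
    aeval x C.h / lh W C.r x = aeval (lx W x) (lc W C x).h := by
  rw [lh, lx, lc]
  split_ifs with h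
  · exact div_one _
  · exact (reflect_eval (ne_zero_of_not h) hC.2.1).symm

lemma two_mem_HC (i : ι) : ∃ n ∈ HC C x y t i, n / lh W (C i).r (x i) = 2 := by
  have key : ∀ k, k ≤ (C i).r → 2 * x i ^ k ∈ HC C x y t i := by
    intro k hk
    rw [HC]
    split_ifs
    · exact Submodule.subset_span (Or.inl ⟨k, hk, rfl⟩)
    · exact Submodule.subset_span (Or.inl ⟨k, hk, rfl⟩)
  by_cases h : x i ∈ W
  · refine ⟨_, key 0 (Nat.zero_le _), ?_⟩
    rw [lh, if_pos h, pow_zero, mul_one, div_one]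
  · refine ⟨_, key (C i).r le_rfl, ?_⟩
    rw [lh, if_neg h, mul_div_assoc, div_self (pow_ne_zero _ (ne_zero_of_not h)), mul_one]

lemma HC_gen (hC : ∀ i, (C i).IsDeg) {𝔞 : Ideal Q} {i : ι}
    (h : ∀ n ∈ HC C x y t i, Im 𝔞 (n / lh W (C i).r (x i))) :
    Im 𝔞 2 ∧ (i ∉ t → Im 𝔞 (ly W (C i).r (x i) (y i)) ∧
      Im 𝔞 (aeval (lx W (x i)) (lc W (C i) (x i)).h)) := by
  constructor
  · obtain ⟨n, hn, h1⟩ := two_mem_HC (C := C) (x := x) (y := y) (t := t) (W := W) i
    rw [← h1]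
    exact h n hn
  · intro hi
    have hHC : HC C x y t i = HN C x y i := by rw [HC, if_neg hi]
    rw [hHC] at h
    constructor
    · rw [← y_div]
      exact h _ (Submodule.subset_span (by simp))
    · rw [← h_div (hC i)]
      exact h _ (Submodule.subset_span (by simp))

lemma HC_div (hC : ∀ i, (C i).IsDeg) {J : Ideal Q} (hOQ : ∀ o, algebraMap O K o ∈ Q) {i : ι}
    (hx : lx W (x i) ∈ Q) (hy : ly W (C i).r (x i) (y i) ∈ Q) (h2 : Im J 2)
    (h : i ∉ t → Im J (ly W (C i).r (x i) (y i)) ∧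
      Im J (aeval (lx W (x i)) (lc W (C i) (x i)).h)) :
    ∀ n ∈ HC C x y t i, Im J (n / lh W (C i).r (x i)) := by
  have h2k : ∀ k ≤ (C i).r, Im J (2 * x i ^ k / lh W (C i).r (x i)) := by
    intro k hk
    obtain ⟨m, hm⟩ := pow_div (W := W) hk (x i)
    rw [mul_div_assoc, hm]
    exact h2.mul_right (Q.pow_mem hx m)
  have h0 : Im J ((0 : K) / lh W (C i).r (x i)) := by rw [zero_div]; exact Im.zero
  have hadd : ∀ a b : K, Im J (a / lh W (C i).r (x i)) → Im J (b / lh W (C i).r (x i)) →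
      Im J ((a + b) / lh W (C i).r (x i)) := by
    intro a b ha hb
    rw [add_div]; exact ha.add hb
  have hsm : ∀ (r : O) (a : K), Im J (a / lh W (C i).r (x i)) →
      Im J (algebraMap O K r * a / lh W (C i).r (x i)) := by
    intro r a ha
    rw [mul_div_assoc]; exact ha.mul_left (hOQ r)
  rw [HC]
  split_ifs with hi
  · refine HT_ind h0 hadd hsm h2k ?_
    rw [mul_div_assoc, y_div]
    exact h2.mul_right hy
  · refine HN_ind h0 hadd hsm h2k ?_ ?_
    · rw [h_div (hC i)]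
      exact (h hi).2
    · rw [y_div]
      exact (h hi).1

variable [DecidableEq ι] [Fintype ι]

/-- The conditions at the points. -/
theorem hyp_pt {E : Type} [Field E] [Algebra E K] [Algebra O E] [IsScalarTower O E K]
    [IsDedekindDomain O] (hO : Function.Injective (algebraMap O K))
    (hx : AlgebraicIndependent E x) (hC : ∀ i, (C i).IsDeg) (hE : ∀ i, Pt (C i) (x i) (y i))
    (hR : ∀ i, (C i).IsReg ∧ (C i).rev.IsReg) (d : ι → O)
    (hd : ∀ i, (C i).IsDisc (d i) ∧ (C i).rev.IsDisc (d i))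
    (hco : ∀ i j, i ≠ j → ∀ 𝔭 : Ideal O, 𝔭.IsPrime → d i ∈ 𝔭 → d j ∈ 𝔭 → (2 : O) ∈ 𝔭)
    (hun : ∀ 𝔭 : Ideal O, 𝔭.IsPrime → (2 : O) ∈ 𝔭 → (2 : O) ∉ 𝔭 ^ 2)
    (ht : ∃ i, i ∉ t) (hord : ∀ i, i ∉ t → (C i).IsOrd ∧ (C i).rev.IsOrd)
    (hsmo : ∀ i ∈ t, (C i).IsSmoothTwo ∧ (C i).rev.IsSmoothTwo)
    (σ : K ≃ₐ[O] K) (hσx : ∀ i, i ∉ t → σ (x i) = x i)
    (hσy : ∀ i, i ∉ t → σ (y i) = -y i - aeval (x i) (C i).h)
    (hσt : ∀ i ∈ t, (σ (x i) = x i ∨ σ (x i) = -x i) ∧ (σ (y i) = y i ∨ σ (y i) = -y i))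
    (hσσ : ∀ x, σ (σ x) = x)
    (hOW : ∀ o, algebraMap O K o ∈ W)
    (hQ : Q = lo W.toSubring (Subring.closure
      (DS (HM C x y) fun i => lh W (C i).r (x i)))) :
    ∃ _ : IsRegularLocalRing Q,
      ∀ 𝔞 : Ideal Q, 𝔞 = Ideal.span {z : Q | ∃ i, ∃ n ∈ HC C x y t i,
          (z : K) = n / lh W (C i).r (x i)} →
          (𝔞 ≠ ⊤ → IsRegularLocalRing (Q ⧸ 𝔞)) ∧
          (¬ IsUnit (2 : Q) → IsFixed σ Q → 𝔞 ≠ ⊤ ∧ NondegenerateWild σ Q 𝔞) := by
  classical
  rw [closure_HG hC] at hQ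
  subst hQ
  have hP : ∀ i, Pt (lc W (C i) (x i)) (lx W (x i)) (ly W (C i).r (x i) (y i)) := fun i =>
    lc_pt (hC i) (hE i)
  have hsm2 : Nn W (2 : K) → ∀ i,
      SmP (lc W (C i) (x i)) (lx W (x i)) (ly W (C i).r (x i) (y i)) W := by
    intro h2 i
    by_cases hi : i ∈ t
    · exact sm_of_smooth hOW (hP i) (lx_mem _) h2
        (lc_cases (p := fun C => C.IsSmoothTwo) (hsmo i hi).1 (hsmo i hi).2)
    · exact sm_of_ord hOW (hP i) (lx_mem _) h2
        (lc_cases (p := fun C => C.IsOrd) (hord i hi).1 (hord i hi).2)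
  have hreg : IsRegularLocalRing (lo W.toSubring (Subring.closure (HG W C x y))) :=
    hyp_reg hO hx hC hE hR d hd hco hOW hsm2
  refine ⟨hreg, ?_⟩
  set Q := lo W.toSubring (Subring.closure (HG W C x y)) with hQ
  intro 𝔞 h𝔞
  have hGW : HG W C x y ⊆ (W : Set K) := HG_sub hC hE hOW
  have hcW : Subring.closure (HG W C x y) ≤ W.toSubring := Subring.closure_le.2 hGW
  have hGQ : HG W C x y ⊆ (Q : Set K) := fun x hx => le_lo _ _ (Subring.subset_closure hx)
  have hOQ : ∀ o, algebraMap O K o ∈ Q := fun o => hGQ (Or.inl ⟨o, rfl⟩)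
  have hxQ : ∀ i, lx W (x i) ∈ Q := fun i => hGQ (Or.inr ⟨i, Or.inl rfl⟩)
  have hyQ : ∀ i, ly W (C i).r (x i) (y i) ∈ Q := fun i => hGQ (Or.inr ⟨i, Or.inr rfl⟩)
  have hpQ : ∀ i (p : O[X]), aeval (lx W (x i)) p ∈ Q := fun i p => aeval_mem hOQ (hxQ i) p
  have hMQ : ∀ i, ∀ z ∈ HM C x y i, z / lh W (C i).r (x i) ∈ Q := fun i =>
    HM_div hOQ (hxQ i) (hyQ i)
  have hQW : Q ≤ W.toSubring := lo_le hcW
  have hIC : IC W.toSubring Q := ic_lo hcW
  have hmax : ∀ z : Q, z ∈ maximalIdeal Q ↔ NU W.toSubring (z : K) := mem_max_iff hQW hIC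
  have hmax' : ∀ z, Im (maximalIdeal Q) z ↔ z ∈ Q ∧ Nn W z := by
    intro z
    constructor
    · intro h
      exact ⟨h.mem, hQW h.mem, (hmax ⟨z, h.mem⟩).1 (h.mk _)⟩
    · rintro ⟨h1, h2⟩
      exact ⟨⟨z, h1⟩, (hmax _).2 h2.2, rfl⟩
  have h𝔞n : ∀ i, ∀ n ∈ HC C x y t i, Im 𝔞 (n / lh W (C i).r (x i)) := by
    intro i n hn
    refine ⟨⟨n / lh W (C i).r (x i), hMQ i n (HC_le hC i hn)⟩, ?_, rfl⟩
    rw [h𝔞]
    exact Ideal.subset_span ⟨i, n, hn, rfl⟩
  have h𝔞le : ∀ J : Ideal Q, Im J 2 → (∀ i, i ∉ t → Im J (ly W (C i).r (x i) (y i)) ∧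
      Im J (aeval (lx W (x i)) (lc W (C i) (x i)).h)) → 𝔞 ≤ J := by
    intro J h2 h
    rw [h𝔞, Ideal.span_le]
    rintro z ⟨i, n, hn, hzn⟩
    have h1 := HC_div hC hOQ (hxQ i) (hyQ i) h2 (h i) n hn
    rw [← hzn] at h1
    exact h1.mk z.2
  obtain ⟨i₀, hi₀⟩ := ht
  have e2 : Im 𝔞 (2 : K) := (HC_gen hC (h𝔞n i₀)).1
  have eY : ∀ i, i ∉ t → Im 𝔞 (ly W (C i).r (x i) (y i)) := fun i hi =>
    ((HC_gen hC (h𝔞n i)).2 hi).1
  have eH : ∀ i, i ∉ t → Im 𝔞 (aeval (lx W (x i)) (lc W (C i) (x i)).h) := fun i hi =>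
    ((HC_gen hC (h𝔞n i)).2 hi).2
  have i4 : Im (𝔞 ^ 2) (4 : K) := by
    have := e2.sq e2
    rwa [show (2 : K) * 2 = 4 by norm_num] at this
  -- the data of the ordinary curves
  have hordl : ∀ i, i ∉ t → (lc W (C i) (x i)).IsOrd := fun i hi =>
    lc_cases (p := fun C => C.IsOrd) (hord i hi).1 (hord i hi).2
  constructor
  · intro hne
    have hNn : ∀ z, Im 𝔞 z → Nn W z := by
      intro z hz
      exact ((hmax' z).1 (hz.mono (le_maximalIdeal hne))).2
    have h2N := hNn _ e2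
    have hspec : ∀ i, i ∉ t → ∃ u v : O[X], (lc W (C i) (x i)).f = (lc W (C i) (x i)).h * u +
        4 * v ∧ Nn W (ly W (C i).r (x i) (y i)) ∧ ¬ Nn W (aeval (lx W (x i)) u) ∧
        ¬ Nn W (aeval (lx W (x i)) (derivative (lc W (C i) (x i)).h) *
          ly W (C i).r (x i) (y i) - aeval (lx W (x i)) (derivative (lc W (C i) (x i)).f)) := by
      intro i hi
      obtain ⟨u, v, hf, h3, h4⟩ := hordl i hi
      exact ⟨u, v, hf, ord_spec hOW (hP i) (lx_mem _) h2N hf h3 h4 (hNn _ (eH i hi))⟩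
    obtain ⟨κ, _, p, hp, hrange⟩ := hyp_quot hO hx hC hE hun hOW h2N (hsm2 h2N) tᶜ (by
      intro i hi
      obtain ⟨u, v, hf, h1, h3, h4⟩ := hspec i hi
      exact ⟨h1, h4⟩)
    have hpm : ∀ k, Im 𝔞 (p k) := by
      intro k
      have h1 : p k ∈ Set.range p := ⟨k, rfl⟩
      rw [hrange] at h1
      rcases h1 with h1 | ⟨i, hi, h1⟩
      · rw [h1]; exact e2
      · rw [h1]; exact eY i hi
    have hreg2 := regP_quot hp (fun k => (hNn _ (hpm k)).2)
    have heq : 𝔞 = Ideal.span (Set.range fun i => (⟨p i, hp.mem i⟩ : Q)) := by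
      apply le_antisymm
      · set J := Ideal.span (Set.range fun i => (⟨p i, hp.mem i⟩ : Q)) with hJ
        have hJp : ∀ z ∈ Set.range p, Im J z := by
          rintro _ ⟨k, rfl⟩
          exact ⟨⟨p k, hp.mem k⟩, Ideal.subset_span ⟨k, rfl⟩, rfl⟩
        have j2 : Im J 2 := hJp _ (by rw [hrange]; exact Or.inl rfl)
        refine h𝔞le J j2 fun i hi => ?_
        have jY : Im J (ly W (C i).r (x i) (y i)) :=
          hJp _ (by rw [hrange]; exact Or.inr ⟨i, hi, rfl⟩)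
        refine ⟨jY, ?_⟩
        obtain ⟨u, v, hf, -, hu, -⟩ := hspec i hi
        obtain ⟨hu0, hui⟩ := Nn.inv (hQW (hpQ i u)) hu
        have hui' : (aeval (lx W (x i)) u)⁻¹ ∈ Q := hIC _ (hpQ i u) hu0 hui
        have h1 : aeval (lx W (x i)) (lc W (C i) (x i)).h = (aeval (lx W (x i)) u)⁻¹ *
            ((ly W (C i).r (x i) (y i) + aeval (lx W (x i)) (lc W (C i) (x i)).h) *
              ly W (C i).r (x i) (y i) - (2 * aeval (lx W (x i)) v) * 2) := by
          rw [eq_inv_mul_iff_mul_eq₀ hu0]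
          have h3 := hP i
          unfold Pt at h3
          rw [hf, map_add, map_mul, map_mul, map_ofNat] at h3
          linear_combination -h3
        rw [h1]
        exact ((jY.mul_left (Q.add_mem (hyQ i) (hpQ i _))).sub
          (j2.mul_left (Q.mul_mem e2.mem (hpQ i v)))).mul_left hui'
      · rw [Ideal.span_le]
        rintro _ ⟨k, rfl⟩
        exact (hpm k).mk _
    rw [heq]
    exact hreg2
  · intro h2u hfix
    have h2N : Nn W (2 : K) := by
      have h1 : (2 : Q) ∈ maximalIdeal Q := (mem_maximalIdeal _).2 h2u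
      exact ((hmax' 2).1 ⟨2, h1, rfl⟩).2
    have hfx : ∀ x ∈ Q, σ x ∈ Q ∧ Nn W (σ x - x) := by
      intro x hx
      obtain ⟨z, hz, hz'⟩ := hfix ⟨x, hx⟩
      have h1 : σ x ∈ Q := by rw [← hz]; exact z.2
      refine ⟨h1, hQW (Q.sub_mem h1 hx), ?_⟩
      have h3 : z - ⟨x, hx⟩ ∈ maximalIdeal Q := (mem_maximalIdeal _).2 hz'
      have h4 := (hmax _).1 h3
      have h5 : ((z - ⟨x, hx⟩ : Q) : K) = σ x - x := by
        change (z : K) - x = σ x - x
        rw [hz]
      rwa [h5] at h4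
    -- the involution in the local coordinates
    have sX : ∀ i, i ∉ t → σ (lx W (x i)) = lx W (x i) := by
      intro i hi
      rw [lx]
      split_ifs
      · exact hσx i hi
      · rw [map_inv₀, hσx i hi]
    have sH : ∀ i, i ∉ t → ∀ p : O[X], σ (aeval (lx W (x i)) p) = aeval (lx W (x i)) p := by
      intro i hi p
      have h1 := aeval_algHom_apply (σ : K →ₐ[O] K) (lx W (x i)) p
      rw [← sX i hi] at h1
      have h3 : (σ : K →ₐ[O] K) (σ (lx W (x i))) = σ (lx W (x i)) := by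
        rw [sX i hi]
        exact sX i hi
      rw [h3, sX i hi] at h1
      exact h1.symm
    have sY : ∀ i, i ∉ t → σ (ly W (C i).r (x i) (y i)) = -ly W (C i).r (x i) (y i) -
        aeval (lx W (x i)) (lc W (C i) (x i)).h := by
      intro i hi
      rw [← h_div (hC i), ← y_div, map_div₀, hσy i hi]
      have h1 : σ (lh W (C i).r (x i)) = lh W (C i).r (x i) := by
        rw [lh]
        split_ifs
        · exact map_one _
        · rw [map_pow, hσx i hi]
      rw [h1]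
      ring
    have sT : ∀ i ∈ t, (σ (lx W (x i)) = lx W (x i) ∨ σ (lx W (x i)) = -lx W (x i)) ∧
        (σ (ly W (C i).r (x i) (y i)) = ly W (C i).r (x i) (y i) ∨
          σ (ly W (C i).r (x i) (y i)) = -ly W (C i).r (x i) (y i)) := by
      intro i hi
      obtain ⟨h1, h3⟩ := hσt i hi
      constructor
      · rw [lx]
        split_ifs
        · exact h1
        · rw [map_inv₀]
          rcases h1 with h1 | h1
          · rw [h1]; exact Or.inl rfl
          · rw [h1, inv_neg]; exact Or.inr rfl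
      · rw [ly]
        split_ifs
        · exact h3
        · rw [map_div₀, map_pow]
          have h4 : σ (x i) ^ (C i).r = x i ^ (C i).r ∨ σ (x i) ^ (C i).r = -x i ^ (C i).r := by
            rcases h1 with h1 | h1
            · rw [h1]; exact Or.inl rfl
            · rw [h1]
              rcases Nat.even_or_odd (C i).r with h5 | h5
              · exact Or.inl (h5.neg_pow _)
              · exact Or.inr (h5.neg_pow _)
          rcases h3 with h3 | h3 <;> rcases h4 with h4 | h4 <;> rw [h3, h4]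
          · exact Or.inl rfl
          · rw [div_neg]; exact Or.inr rfl
          · rw [neg_div]; exact Or.inr rfl
          · rw [neg_div_neg_eq]; exact Or.inl rfl
    have hHn : ∀ i, i ∉ t → Nn W (aeval (lx W (x i)) (lc W (C i) (x i)).h) := by
      intro i hi
      have h1 := (hfx _ (hyQ i)).2
      rw [sY i hi] at h1
      have h3 : aeval (lx W (x i)) (lc W (C i) (x i)).h =
          -(-ly W (C i).r (x i) (y i) - aeval (lx W (x i)) (lc W (C i) (x i)).h -
            ly W (C i).r (x i) (y i)) - ly W (C i).r (x i) (y i) * 2 := by ring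
      rw [h3]
      exact h1.neg.sub (h2N.mul (hQW (hyQ i)))
    have hspec : ∀ i, i ∉ t → ∃ u v : O[X], (lc W (C i) (x i)).f = (lc W (C i) (x i)).h * u +
        4 * v ∧ Nn W (ly W (C i).r (x i) (y i)) ∧ ¬ Nn W (aeval (lx W (x i)) u) := by
      intro i hi
      obtain ⟨u, v, hf, h3, h4⟩ := hordl i hi
      obtain ⟨h5, h6, -⟩ := ord_spec hOW (hP i) (lx_mem _) h2N hf h3 h4 (hHn i hi)
      exact ⟨u, v, hf, h5, h6⟩
    have h𝔞ne : 𝔞 ≤ maximalIdeal Q := by
      refine h𝔞le _ ((hmax' 2).2 ⟨e2.mem, h2N⟩) fun i hi => ?_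
      obtain ⟨u, v, -, h1, -⟩ := hspec i hi
      exact ⟨(hmax' _).2 ⟨hyQ i, h1⟩, (hmax' _).2 ⟨hpQ i _, hHn i hi⟩⟩
    have hne : 𝔞 ≠ ⊤ := by
      intro h
      rw [h, top_le_iff] at h𝔞ne
      exact (maximalIdeal.isMaximal Q).ne_top h𝔞ne
    refine ⟨hne, ?_⟩
    -- the local computations
    have hL : ∀ i, i ∉ t → ∃ p q : K, p ∈ Q ∧ Im 𝔞 q ∧
        Im (𝔞 ^ 2) (aeval (lx W (x i)) (lc W (C i) (x i)).h) ∧
        Im (𝔞 ^ 2) (σ (ly W (C i).r (x i) (y i)) - ly W (C i).r (x i) (y i)) ∧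
        ly W (C i).r (x i) (y i) ^ 2 =
          p * (σ (ly W (C i).r (x i) (y i)) - ly W (C i).r (x i) (y i)) + 2 * q := by
      intro i hi
      obtain ⟨u, v, hf, hYn, hu⟩ := hspec i hi
      obtain ⟨hu0, hui⟩ := Nn.inv (hQW (hpQ i u)) hu
      have hui' : (aeval (lx W (x i)) u)⁻¹ ∈ Q := hIC _ (hpQ i u) hu0 hui
      have h3 := hP i
      unfold Pt at h3
      rw [hf, map_add, map_mul, map_mul, map_ofNat] at h3
      have iY := eY i hi
      have iH := eH i hi
      have hH2 : Im (𝔞 ^ 2) (aeval (lx W (x i)) (lc W (C i) (x i)).h) := by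
        have h1 : aeval (lx W (x i)) (lc W (C i) (x i)).h = (aeval (lx W (x i)) u)⁻¹ *
            ((ly W (C i).r (x i) (y i) + aeval (lx W (x i)) (lc W (C i) (x i)).h) *
              ly W (C i).r (x i) (y i) - aeval (lx W (x i)) v * 4) := by
          rw [eq_inv_mul_iff_mul_eq₀ hu0]
          linear_combination -h3
        rw [h1]
        exact (((iY.add iH).sq iY).sub (i4.mul_left (hpQ i v))).mul_left hui'
      refine ⟨-(aeval (lx W (x i)) u - ly W (C i).r (x i) (y i)),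
        -(ly W (C i).r (x i) (y i) * (aeval (lx W (x i)) u - ly W (C i).r (x i) (y i))) +
          2 * aeval (lx W (x i)) v, ?_, ?_, hH2, ?_, ?_⟩
      · exact Q.neg_mem (Q.sub_mem (hpQ i u) (hyQ i))
      · exact (iY.mul_right (Q.sub_mem (hpQ i u) (hyQ i))).neg.add (e2.mul_right (hpQ i v))
      · rw [sY i hi]
        have h1 : -ly W (C i).r (x i) (y i) - aeval (lx W (x i)) (lc W (C i) (x i)).h -
            ly W (C i).r (x i) (y i) = -(2 * ly W (C i).r (x i) (y i)) -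
              aeval (lx W (x i)) (lc W (C i) (x i)).h := by ring
        rw [h1]
        exact (e2.sq iY).neg.sub hH2
      · rw [sY i hi]
        linear_combination h3
    have hst : ∀ x ∈ Q, σ x ∈ Q := fun x hx => (hfx x hx).1
    have key : ∀ z ∈ HG W C x y, Im 𝔞 (σ z - z) := by
      rintro z (⟨o, rfl⟩ | ⟨i, rfl | rfl⟩)
      · rw [σ.commutes, sub_self]
        exact Im.zero
      · by_cases hi : i ∈ t
        · rcases (sT i hi).1 with h1 | h1
          · rw [h1, sub_self]; exact Im.zero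
          · rw [h1, show -lx W (x i) - lx W (x i) = (-lx W (x i)) * 2 by ring]
            exact e2.mul_left (Q.neg_mem (hxQ i))
        · rw [sX i hi, sub_self]; exact Im.zero
      · by_cases hi : i ∈ t
        · rcases (sT i hi).2 with h1 | h1
          · rw [h1, sub_self]; exact Im.zero
          · rw [h1, show -ly W (C i).r (x i) (y i) - ly W (C i).r (x i) (y i) =
              (-ly W (C i).r (x i) (y i)) * 2 by ring]
            exact e2.mul_left (Q.neg_mem (hyQ i))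
        · obtain ⟨p, q, -, -, -, h1, -⟩ := hL i hi
          exact h1.mono (Ideal.pow_le_self two_ne_zero)
    set G : Set Q := {z : Q | (z : K) = 2 ∨ ∃ i, i ∉ t ∧ ((z : K) = ly W (C i).r (x i) (y i) ∨
      (z : K) = aeval (lx W (x i)) (lc W (C i) (x i)).h)} with hGdef
    have hG : 𝔞 = Ideal.span G := by
      apply le_antisymm
      · refine h𝔞le _ ⟨⟨2, e2.mem⟩, Ideal.subset_span (Or.inl rfl), rfl⟩ fun i hi => ?_
        exact ⟨⟨⟨_, hyQ i⟩, Ideal.subset_span (Or.inr ⟨i, hi, Or.inl rfl⟩), rfl⟩,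
          ⟨⟨_, hpQ i _⟩, Ideal.subset_span (Or.inr ⟨i, hi, Or.inr rfl⟩), rfl⟩⟩
      · rw [Ideal.span_le]
        rintro z (h1 | ⟨i, hi, h1 | h1⟩)
        · have h3 := e2
          rw [← h1] at h3
          exact h3.mk z.2
        · have h3 := eY i hi
          rw [← h1] at h3
          exact h3.mk z.2
        · have h3 := eH i hi
          rw [← h1] at h3
          exact h3.mk z.2
    refine nondeg2 σ hσσ hreg (D := HG W C x y) ?_ hGQ h𝔞ne (e2.mk e2.mem) hst
      (fun x hx => (key x hx).mk _) G hG ?_ (ι := {i : ι // i ∉ t})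
      (fun i => ⟨ly W (C i.1).r (x i.1) (y i.1), hyQ i.1⟩) (fun i => (eY i.1 i.2).mk _) ?_ ?_
    · rintro x ⟨c, hc, d, hd, hd0, hdW, rfl⟩
      exact ⟨c, hc, d, hd, d⁻¹, hIC d (le_lo _ _ hd) hd0 hdW, mul_inv_cancel₀ hd0, rfl⟩
    · -- the image of the generators of the centre
      have key2 : ∀ z : Q, z ∈ G → Im (𝔞 ^ 2) (σ (z : K) - z) := by
        rintro z (h1 | ⟨i, hi, h1 | h1⟩)
        · rw [h1, map_ofNat, sub_self]
          exact Im.zero
        · obtain ⟨p, q, -, -, -, h3, -⟩ := hL i hi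
          rw [h1]
          exact h3
        · rw [h1, sH i hi, sub_self]
          exact Im.zero
      intro z hz
      exact (key2 z hz).mk _
    · -- generators of the centre
      set J : Ideal Q := Ideal.span {2} ⊔ Ideal.span (Set.range fun i : {i : ι // i ∉ t} =>
        (⟨ly W (C i.1).r (x i.1) (y i.1), hyQ i.1⟩ : Q)) ⊔ 𝔞 ^ 2 with hJ
      have j2 : Im J (2 : K) := ⟨2, Ideal.mem_sup_left (Ideal.mem_sup_left
        (Ideal.mem_span_singleton_self _)), rfl⟩
      refine h𝔞le J j2 fun i hi => ⟨?_, ?_⟩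
      · exact ⟨⟨_, hyQ i⟩, Ideal.mem_sup_left (Ideal.mem_sup_right
          (Ideal.subset_span ⟨⟨i, hi⟩, rfl⟩)), rfl⟩
      · obtain ⟨p, q, -, -, h3, -, -⟩ := hL i hi
        exact h3.mono le_sup_right
    · rintro ⟨i, hi⟩
      set J : Ideal Q := Ideal.span {(2 : Q)} * 𝔞 ⊔ Ideal.span {w : Q | ∃ x ∈ 𝔞,
        (w : K) = σ (x : K) - (x : K)} ⊔ 𝔞 ^ 3 with hJ
      obtain ⟨p, q, hp, hq, -, hδ, hpq⟩ := hL i hi
      have j2 : Im J (2 * q) := by
        have h5 : Im (Ideal.span {(2 : Q)}) (2 : K) := ⟨2, Ideal.mem_span_singleton_self _, rfl⟩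
        exact (h5.mul hq).mono (le_sup_left.trans le_sup_left)
      have jδ : Im J (σ (ly W (C i).r (x i) (y i)) - ly W (C i).r (x i) (y i)) :=
        ⟨⟨_, hδ.mem⟩, Ideal.mem_sup_left (Ideal.mem_sup_right (Ideal.subset_span
          ⟨⟨_, hyQ i⟩, (eY i hi).mk _, rfl⟩)), rfl⟩
      have h4 : Im J (ly W (C i).r (x i) (y i) ^ 2) := by
        rw [hpq]
        exact (jδ.mul_left hp).add j2
      exact h4.mk _

end Pool.Agent.X269.HP
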