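import Pool.Agent.X269.HP.Data

/-!
# Products of double covers: smooth points
-/

set_option autoImplicit false

namespace Pool.Agent.X269.HP

open IsLocalRing Pool.Agent.Y223.INV Pool.Agent.W418.LU2 Pool.Agent.TH188.QS
  Pool.Agent.H918R2.Quad Pool.Agent.TH188.ARC Pool.Agent.X269.KP Polynomial

section nn

variable {K : Type} [Field K] {W : ValuationSubring K}

/-- The elements of the maximal ideal of the valuation ring. -/
def Nn (W : ValuationSubring K) (z : K) : Prop := z ∈ W ∧ NU W.toSubring z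

lemma Nn.add {a b : K} (ha : Nn W a) (hb : Nn W b) : Nn W (a + b) :=
  ⟨W.add_mem _ _ ha.1 hb.1, nu_add ha.1 hb.1 ha.2 hb.2⟩

lemma Nn.mul {a b : K} (ha : a ∈ W) (hb : Nn W b) : Nn W (a * b) :=
  ⟨W.mul_mem _ _ ha hb.1, nu_mul_of_mem ha hb.2⟩

lemma Nn.mul' {a b : K} (ha : a ∈ W) (hb : Nn W b) : Nn W (b * a) := by
  rw [mul_comm]; exact hb.mul ha

lemma Nn.neg {a : K} (ha : Nn W a) : Nn W (-a) := by
  rw [neg_eq_neg_one_mul]
  exact ha.mul (W.neg_mem _ W.one_mem)

lemma Nn.sub {a b : K} (ha : Nn W a) (hb : Nn W b) : Nn W (a - b) := by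
  rw [sub_eq_add_neg]
  exact ha.add hb.neg

lemma not_nn_one : ¬ Nn W (1 : K) := fun h => not_nu_one h.2

lemma Nn.inv {a : K} (ha : a ∈ W) (h : ¬ Nn W a) : a ≠ 0 ∧ a⁻¹ ∈ W := by
  rw [← Pool.Agent.X269.KP.nu_iff]
  exact fun h1 => h ⟨ha, h1⟩

lemma not_nn {a : K} (h0 : a ≠ 0) (h : a⁻¹ ∈ W) : ¬ Nn W a := fun h1 => h1.2 ⟨h0, h⟩

lemma Nn.of_mul {a b : K} (ha : a ∈ W) (h : Nn W (a * b)) (hna : ¬ Nn W a) :
    Nn W b := by
  obtain ⟨h0, h1⟩ := Nn.inv ha hna
  have h2 := h.mul h1
  rwa [inv_mul_cancel_left₀ h0] at h2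

lemma Nn.of_sq {a : K} (ha : a ∈ W) (h : Nn W (a ^ 2)) : Nn W a := by
  by_contra h1
  rw [pow_two] at h
  exact h1 (h.of_mul ha h1)

end nn

variable {O K : Type} [CommRing O] [Field K] [Algebra O K] {W : ValuationSubring K}

lemma num_mem (hOW : ∀ o, algebraMap O K o ∈ W) (n : ℕ) [n.AtLeastTwo] :
    (OfNat.ofNat n : K) ∈ W := by
  have h := hOW (OfNat.ofNat n)
  rwa [map_ofNat] at h

/-- Evaluation of a relation. -/
lemma span_three {a b c : O[X]} (h : Ideal.span {a, b, c} = ⊤) (hOW : ∀ o, algebraMap O K o ∈ W)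
    {x : K} (hx : x ∈ W) (ha : Nn W (aeval x a)) (hb : Nn W (aeval x b)) :
    ¬ Nn W (aeval x c) := by
  intro hc
  have h1 : (1 : O[X]) ∈ Ideal.span {a, b, c} := by rw [h]; trivial
  rw [Ideal.mem_span_insert] at h1
  obtain ⟨p, z, hz, h1⟩ := h1
  rw [Ideal.mem_span_pair] at hz
  obtain ⟨q, r, hz⟩ := hz
  have hm : ∀ p : O[X], aeval x p ∈ W := aeval_mem (T := W.toSubring) hOW hx
  have h2 := congrArg (aeval x) h1
  rw [← hz, map_add, map_add, map_mul, map_mul, map_mul, map_one] at h2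
  apply not_nn_one (W := W)
  rw [h2]
  exact (ha.mul (hm p)).add ((hb.mul (hm q)).add (hc.mul (hm r)))

/-- The point is smooth over the base. -/
def SmP (C : Hyp O) (x y : K) (W : ValuationSubring K) : Prop :=
  ¬ Nn W (2 * y + aeval x C.h) ∨ ¬ Nn W (aeval x (derivative C.h) * y - aeval x (derivative C.f))

/-- The element is in the ideal generated by the branch polynomial and its derivative. -/
def Hyp.IsDisc (C : Hyp O) (d : O) : Prop :=
  Polynomial.C d ∈ Ideal.span {C.branch, derivative C.branch}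

/-- The reduction modulo the primes containing `2` is ordinary. -/
def Hyp.IsOrd (C : Hyp O) : Prop :=
  ∃ u v : O[X], C.f = C.h * u + 4 * v ∧ Ideal.span {2, C.h, derivative C.h} = ⊤ ∧
    Ideal.span {2, C.h, u} = ⊤

/-- The reduction modulo the primes containing `2` is smooth. -/
def Hyp.IsSmoothTwo (C : Hyp O) : Prop :=
  Ideal.span {2, C.h, C.f * derivative C.h ^ 2 - derivative C.f ^ 2} = ⊤

variable {C : Hyp O} {x y : K}

lemma branch_eval (h : Pt C x y) : aeval x C.branch = (2 * y + aeval x C.h) ^ 2 := by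
  unfold Pt at h
  rw [Hyp.branch, map_add, map_mul, map_pow, map_ofNat]
  linear_combination (-4) * h

lemma sm_of_disc' (hOW : ∀ o, algebraMap O K o ∈ W) (h : Pt C x y) (hx : x ∈ W)
    {d : O} (hd : C.IsDisc d) (hdn : ¬ Nn W (algebraMap O K d)) :
    SmP C x y W := by
  by_contra hs
  unfold SmP at hs
  push Not at hs
  obtain ⟨h3, h4⟩ := hs
  apply hdn
  have hy := h.int hOW hx
  have hm : ∀ p : O[X], aeval x p ∈ W := aeval_mem (T := W.toSubring) hOW hx
  have t2 : (2 : K) ∈ W := num_mem hOW 2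
  have t4 : (4 : K) ∈ W := num_mem hOW 4
  have e1 : Nn W (aeval x C.branch) := by
    rw [branch_eval h, pow_two]
    exact h3.mul h3.1
  have e2 : Nn W (aeval x (derivative C.branch)) := by
    have e3 : aeval x (derivative C.branch) = 2 * aeval x (derivative C.h) *
        (2 * y + aeval x C.h) - 4 * (aeval x (derivative C.h) * y - aeval x (derivative C.f)) := by
      have e4 : derivative C.branch = 2 * C.h * derivative C.h + 4 * derivative C.f := by
        have e5 : derivative (4 : O[X]) = 0 := derivative_ofNat 4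
        rw [Hyp.branch, pow_two, derivative_add, derivative_mul, derivative_mul, e5]
        ring
      rw [e4, map_add, map_mul, map_mul, map_mul, map_ofNat, map_ofNat]
      ring
    rw [e3]
    exact (h3.mul (W.mul_mem _ _ t2 (hm _))).sub (h4.mul t4)
  unfold Hyp.IsDisc at hd
  rw [Ideal.mem_span_pair] at hd
  obtain ⟨p, q, hd⟩ := hd
  have e3 := congrArg (aeval x) hd
  rw [map_add, map_mul, map_mul, aeval_C] at e3
  rw [← e3]
  exact (e1.mul (hm p)).add (e2.mul (hm q))

/-- Ordinary points. -/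
lemma ord_spec (hOW : ∀ o, algebraMap O K o ∈ W) (h : Pt C x y) (hx : x ∈ W)
    (h2 : Nn W (2 : K)) {u v : O[X]} (hf : C.f = C.h * u + 4 * v)
    (h3 : Ideal.span {2, C.h, derivative C.h} = ⊤) (h4 : Ideal.span {2, C.h, u} = ⊤)
    (hh : Nn W (aeval x C.h)) : Nn W y ∧ ¬ Nn W (aeval x u) ∧
      ¬ Nn W (aeval x (derivative C.h) * y - aeval x (derivative C.f)) := by
  have hy := h.int hOW hx
  have hm : ∀ p : O[X], aeval x p ∈ W := aeval_mem (T := W.toSubring) hOW hx
  have t2 : (2 : K) ∈ W := num_mem hOW 2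
  have h2' : Nn W (aeval x (2 : O[X])) := by rw [map_ofNat]; exact h2
  have h44 : Nn W (4 : K) := by
    have := h2.mul t2
    rwa [show (2 : K) * 2 = 4 by norm_num] at this
  have i3 := span_three h3 hOW hx h2' hh
  have i4 := span_three h4 hOW hx h2' hh
  have hfx : aeval x C.f = aeval x C.h * aeval x u + 4 * aeval x v := by
    rw [hf, map_add, map_mul, map_mul, map_ofNat]
  have hfx' : aeval x (derivative C.f) = aeval x (derivative C.h) * aeval x u +
      aeval x C.h * aeval x (derivative u) + 4 * aeval x (derivative v) := by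
    rw [hf, derivative_add, derivative_mul, derivative_mul]
    have e5 : derivative (4 : O[X]) = 0 := derivative_ofNat 4
    rw [e5, map_add, map_add, map_add, map_mul, map_mul, map_mul, map_mul, map_ofNat, map_zero]
    ring
  have hyn : Nn W y := by
    apply Nn.of_sq hy
    unfold Pt at h
    have e1 : y ^ 2 = (aeval x u - y) * aeval x C.h + aeval x v * 4 := by
      rw [hfx] at h
      linear_combination h
    rw [e1]
    exact (hh.mul (sub_mem (hm _) hy)).add (h44.mul (hm _))
  refine ⟨hyn, i4, fun h5 => ?_⟩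
  have h6 : Nn W (aeval x (derivative C.h) * aeval x u) := by
    have e1 : aeval x (derivative C.h) * aeval x u = aeval x (derivative C.h) * y -
        (aeval x (derivative C.h) * y - aeval x (derivative C.f)) -
        aeval x (derivative u) * aeval x C.h - aeval x (derivative v) * 4 := by
      rw [hfx']
      ring
    rw [e1]
    exact (((hyn.mul (hm _)).sub h5).sub (hh.mul (hm _))).sub (h44.mul (hm _))
  exact i4 (h6.of_mul (hm _) i3)

lemma nn_h (hOW : ∀ o, algebraMap O K o ∈ W) (h : Pt C x y) (hx : x ∈ W)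
    (h2 : Nn W (2 : K)) (h3 : Nn W (2 * y + aeval x C.h)) : Nn W (aeval x C.h) := by
  have hy := h.int hOW hx
  have e1 : aeval x C.h = (2 * y + aeval x C.h) - y * 2 := by ring
  rw [e1]
  exact h3.sub (h2.mul hy)

lemma sm_of_ord (hOW : ∀ o, algebraMap O K o ∈ W) (h : Pt C x y) (hx : x ∈ W)
    (h2 : Nn W (2 : K)) (hC : C.IsOrd) : SmP C x y W := by
  obtain ⟨u, v, hf, h3, h4⟩ := hC
  by_cases h5 : Nn W (2 * y + aeval x C.h)
  · exact Or.inr (ord_spec hOW h hx h2 hf h3 h4 (nn_h hOW h hx h2 h5)).2.2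
  · exact Or.inl h5

lemma sm_of_smooth (hOW : ∀ o, algebraMap O K o ∈ W) (h : Pt C x y) (hx : x ∈ W)
    (h2 : Nn W (2 : K)) (hC : C.IsSmoothTwo) : SmP C x y W := by
  by_contra hs
  unfold SmP at hs
  push Not at hs
  obtain ⟨h3, h4⟩ := hs
  have hy := h.int hOW hx
  have hm : ∀ p : O[X], aeval x p ∈ W := aeval_mem (T := W.toSubring) hOW hx
  have t2 : (2 : K) ∈ W := num_mem hOW 2
  have h2' : Nn W (aeval x (2 : O[X])) := by rw [map_ofNat]; exact h2
  have hh := nn_h hOW h hx h2 h3
  apply span_three hC hOW hx h2' hh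
  rw [map_sub, map_mul, map_pow, map_pow]
  have e1 : aeval x C.f * aeval x (derivative C.h) ^ 2 - aeval x (derivative C.f) ^ 2 =
      (aeval x (derivative C.h) * y - aeval x (derivative C.f)) *
        (aeval x (derivative C.h) * y - aeval x (derivative C.f)) +
      (aeval x (derivative C.h) ^ 2 * y) * aeval x C.h +
      ((aeval x (derivative C.h) * y - aeval x (derivative C.f)) * aeval x (derivative C.f)) * 2 := by
    unfold Pt at h
    rw [← h]
    ring
  rw [e1]
  exact ((h4.mul h4.1).add (hh.mul (W.mul_mem _ _ (pow_mem (hm _) 2) hy))).add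
    (h2.mul (W.mul_mem _ _ h4.1 (hm _)))

end Pool.Agent.X269.HP
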