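import Pool.Agent.X269.KP.EllMain

/-!
# Adjoining a simple root: parameters
-/

set_option autoImplicit false

namespace Pool.Agent.X269.HP

open IsLocalRing Polynomial Pool.Agent.W418.LU2 Pool.Agent.X269.KP

variable {F : Type} [Field F] {A S : Subring F} {ι : Type} [Fintype ι] {x : ι → F}

/-- One more element. -/
lemma indN_snoc {R : Type} [CommRing R] [IsLocalRing R] {κ : Type} [Fintype κ] {z : κ → R} {f : R}
    (hz : IndN z) (hfm : f ∈ maximalIdeal R) (J : Ideal R) (hJ : maximalIdeal R ^ 2 ≤ J)
    (hzJ : ∀ i, z i ∈ maximalIdeal R → z i ∈ J) (hf : f ∉ J) :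
    IndN (Sum.elim z (fun _ : Unit => f)) := by
  intro c hc hs
  rw [Fintype.sum_sum_type] at hs
  simp only [Sum.elim_inl, Sum.elim_inr, Finset.univ_unique, Finset.sum_singleton] at hs
  have hdef : (default : Unit) = () := rfl
  rw [hdef] at hs
  have hcf : c (Sum.inr ()) ∈ maximalIdeal R := by
    by_contra hcon
    rw [mem_maximalIdeal, mem_nonunits_iff, not_not] at hcon
    refine hf ?_
    have e4 : ∑ i, c (Sum.inl i) * z i ∈ J := by
      refine Ideal.sum_mem _ fun i _ => ?_
      by_cases hi : z i ∈ maximalIdeal R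
      · exact Ideal.mul_mem_left _ _ (hzJ i hi)
      · rw [hc (Sum.inl i) hi, zero_mul]
        exact Ideal.zero_mem _
    have e5 := (Ideal.add_mem_iff_right J e4).1 (hJ hs)
    rw [mul_comm] at e5
    exact (Ideal.mul_unit_mem_iff_mem _ hcon).1 e5
  have h4 := hz (fun i => c (Sum.inl i)) (fun i hi => hc (Sum.inl i) hi) (by
    have e1 : c (Sum.inr ()) * f ∈ maximalIdeal R ^ 2 := by
      rw [pow_two]
      exact Ideal.mul_mem_mul hcf hfm
    exact (Ideal.add_mem_iff_left _ e1).1 hs)
  rintro (i | i)
  · exact h4 i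
  · exact hcf

/-- Adjoining a simple root. -/
theorem root_derivP (hA : Loc A) (hS : S ≤ A) (h : RegP A (lo A S) x) {t : F}
    (ht : t ∈ A) (f : (lo A S)[X]) (hf : eval₂ (lo A S).subtype t f = 0)
    (hd : eval₂ (lo A S).subtype t (derivative f) ≠ 0)
    (hd' : (eval₂ (lo A S).subtype t (derivative f))⁻¹ ∈ A) :
    RegP A (lo A (Subring.closure (insert t (S : Set F)))) x := by
  classical
  have hregS := h.reg
  have ad := adj_closure hA hS ht
  have hP := ad.P_prime
  have hloc := isLocalRing_lo hA ad.SA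
  obtain ⟨hC, h1, -⟩ := poly_indN ad.P ad.comap_P h.ind
  set R := Localization.AtPrime ad.P with hR
  have hinj : Function.Injective (algebraMap (lo A S)[X] R) :=
    IsLocalization.injective R ad.P.primeCompl_le_nonZeroDivisors
  have hfP : f ∈ ad.P := by
    by_contra h
    rw [ad.not_mem_P, isUnit_lo_iff ad.SA, ad.ev_coe] at h
    exact h.1 hf
  have hf'P : derivative f ∉ ad.P := by
    rw [ad.not_mem_P, isUnit_lo_iff ad.SA, ad.ev_coe]
    exact ⟨hd, hd'⟩
  have hfm : algebraMap (lo A S)[X] R f ∈ maximalIdeal R :=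
    (IsLocalization.AtPrime.to_map_mem_maximal_iff _ ad.P _).2 hfP
  -- the derivative
  have key : ∀ g ∈ (maximalIdeal (lo A S)).map (C : lo A S →+* (lo A S)[X]) ⊔ ad.P ^ 2,
      derivative g ∈ ad.P := by
    intro g hg
    obtain ⟨a, ha, b, hb, rfl⟩ := Submodule.mem_sup.1 hg
    rw [derivative_add]
    refine Ideal.add_mem _ ?_ ?_
    · have h2 : ∀ a ∈ (maximalIdeal (lo A S)).map (C : lo A S →+* (lo A S)[X]),
          a ∈ ad.P ∧ derivative a ∈ ad.P := by
        intro a ha
        have hle : (maximalIdeal (lo A S)).map (C : lo A S →+* (lo A S)[X]) ≤ ad.P := by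
          rw [Ideal.map_le_iff_le_comap, ad.comap_P]
        refine ⟨hle ha, ?_⟩
        refine Submodule.span_induction (p := fun a _ => derivative a ∈ ad.P) ?_ ?_ ?_ ?_ ha
        · rintro _ ⟨c, hc, rfl⟩
          rw [derivative_C]
          exact Ideal.zero_mem _
        · rw [derivative_zero]
          exact Ideal.zero_mem _
        · intro a b _ _ ha hb
          rw [derivative_add]
          exact Ideal.add_mem _ ha hb
        · intro c a ha' ha
          rw [smul_eq_mul, derivative_mul]
          exact Ideal.add_mem _ (Ideal.mul_mem_left _ _ (hle ha')) (Ideal.mul_mem_left _ _ ha)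
      exact (h2 a ha).2
    · rw [pow_two] at hb
      refine Submodule.mul_induction_on hb ?_ ?_
      · intro a ha b hb
        rw [derivative_mul]
        exact Ideal.add_mem _ (Ideal.mul_mem_left _ _ hb) (Ideal.mul_mem_right _ _ ha)
      · intro a b ha hb
        rw [derivative_add]
        exact Ideal.add_mem _ ha hb
  -- `f` is independent of the constants
  have hf2 : ∀ J : Ideal R, J ≤ ((maximalIdeal (lo A S)).map (C : lo A S →+* (lo A S)[X]) ⊔
      ad.P ^ 2).map (algebraMap (lo A S)[X] R) → algebraMap (lo A S)[X] R f ∉ J := by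
    intro J hJ hcon
    have h2 := hJ hcon
    rw [IsLocalization.mem_map_algebraMap_iff ad.P.primeCompl] at h2
    obtain ⟨⟨a, s⟩, h2⟩ := h2
    have h3 : f * (s : (lo A S)[X]) = a := hinj (by rw [map_mul]; exact h2)
    have h4 := key _ a.2
    rw [← h3, derivative_mul] at h4
    have h5 : derivative f * (s : (lo A S)[X]) ∈ ad.P := by
      have h6 := Ideal.sub_mem _ h4 (Ideal.mul_mem_right (derivative (s : (lo A S)[X])) _ hfP)
      rwa [add_sub_cancel_right] at h6
    rcases hP.mem_or_mem h5 with h6 | h6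
    · exact hf'P h6
    · exact s.2 h6
  have h3 : IndN (Sum.elim (fun i => algebraMap (lo A S)[X] R (C (⟨x i, h.mem i⟩ : lo A S)))
      (fun _ : Unit => algebraMap (lo A S)[X] R f)) := by
    refine indN_snoc h1 hfm (((maximalIdeal (lo A S)).map (C : lo A S →+* (lo A S)[X]) ⊔
      ad.P ^ 2).map (algebraMap (lo A S)[X] R)) ?_ ?_ (hf2 _ le_rfl)
    · rw [Ideal.map_sup, Ideal.map_pow, Localization.AtPrime.map_eq_maximalIdeal]
      exact le_sup_right
    · intro i hi
      exact Ideal.mem_map_of_mem _ (Ideal.mem_sup_left (Ideal.mem_map_of_mem _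
        ((alg_mem ad.P ad.comap_P _).1 hi)))
  -- the kernel
  have hk : RingHom.ker ad.th = Ideal.span (Set.range fun _ : Unit =>
      algebraMap (lo A S)[X] R f) := by
    have hind : Ind (fun _ : Unit => algebraMap (lo A S)[X] R f) :=
      h3.ind (fun _ : Unit => (Sum.inr () : ι ⊕ Unit)) (fun a b _ => rfl) (fun _ => hfm)
    have hprime : Prime (algebraMap (lo A S)[X] R f) := hind.prime ()
    have hsub : Function.Injective (lo A S).subtype := Subtype.val_injective
    have hrange : Set.range (fun _ : Unit => algebraMap (lo A S)[X] R f) =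
        {algebraMap (lo A S)[X] R f} := by
      ext y; simp
    rw [hrange]
    apply le_antisymm
    · intro y hy
      obtain ⟨g, s, rfl⟩ := IsLocalization.exists_mk'_eq ad.P.primeCompl y
      have hgt : eval₂ (lo A S).subtype t g = 0 := by
        have h4 : ad.th (IsLocalization.mk' R g s * algebraMap _ _ (s : (lo A S)[X])) = 0 := by
          rw [map_mul, RingHom.mem_ker.1 hy, zero_mul]
        rw [IsLocalization.mk'_spec, ad.th_alg] at h4
        exact congrArg Subtype.val h4
      rw [IsLocalization.mk'_eq_mul_mk'_one]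
      refine Ideal.mul_mem_right _ _ ?_
      rw [Ideal.mem_span_singleton]
      -- a polynomial of minimal degree
      have hf0 : f ≠ 0 := by
        rintro rfl
        exact hprime.1 (map_zero _)
      have hex : ∃ k : ℕ, ∃ h : (lo A S)[X], h.natDegree = k ∧ h ≠ 0 ∧
          eval₂ (lo A S).subtype t h = 0 := ⟨_, f, rfl, hf0, hf⟩
      obtain ⟨h, hkd, hh0, hht⟩ := Nat.find_spec hex
      have hmin : ∀ g : (lo A S)[X], g ≠ 0 → eval₂ (lo A S).subtype t g = 0 →
          h.natDegree ≤ g.natDegree := fun g hg0 hgt' => by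
        rw [hkd]
        exact Nat.find_min' hex ⟨g, rfl, hg0, hgt'⟩
      obtain ⟨c₁, hc₁, q₁, hq₁⟩ := pseudo (lo A S).subtype t h hh0 hht hmin _ f le_rfl hf
      obtain ⟨c₂, hc₂, q₂, hq₂⟩ := pseudo (lo A S).subtype t h hh0 hht hmin _ g le_rfl hgt
      have hfq : algebraMap (lo A S)[X] R f ∣ algebraMap _ R q₁ * algebraMap _ R h := by
        rw [← map_mul, ← hq₁, map_mul]
        exact dvd_mul_left _ _
      have hcne : ∀ c : lo A S, c ≠ 0 → ¬ algebraMap (lo A S)[X] R f ∣ algebraMap _ R (C c) := by
        rintro c hc ⟨e, he⟩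
        have h1 := congrArg ad.th he
        have h2 : ad.th (algebraMap (lo A S)[X] R f) = 0 := by
          rw [ad.th_alg]
          exact Subtype.ext hf
        rw [map_mul, h2, zero_mul, ad.th_alg] at h1
        have h3 := congrArg Subtype.val h1
        rw [ad.ev_C] at h3
        exact hc (Subtype.ext h3)
      have hfh : algebraMap (lo A S)[X] R f ∣ algebraMap _ R h := by
        rcases hprime.2.2 _ _ hfq with h1 | h1
        · exfalso
          obtain ⟨e, he⟩ := h1
          obtain ⟨k, s', rfl⟩ := IsLocalization.exists_mk'_eq ad.P.primeCompl e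
          have h2 : algebraMap (lo A S)[X] R (q₁ * s') = algebraMap _ R (f * k) := by
            rw [map_mul, he, mul_assoc, IsLocalization.mk'_spec, ← map_mul]
          have h3 : q₁ * (s' : (lo A S)[X]) = f * k := hinj h2
          have h4 : C c₁ * (s' : (lo A S)[X]) = k * h := by
            have h5 : f * (C c₁ * (s' : (lo A S)[X])) = f * (k * h) := by
              calc f * (C c₁ * (s' : (lo A S)[X])) = (C c₁ * f) * s' := by ring
                _ = (q₁ * h) * s' := by rw [hq₁]
                _ = (q₁ * s') * h := by ring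
                _ = (f * k) * h := by rw [h3]
                _ = f * (k * h) := by ring
            exact mul_left_cancel₀ hf0 h5
          have h6 := congrArg (eval₂ (lo A S).subtype t) h4
          rw [eval₂_mul, eval₂_mul, hht, mul_zero, eval₂_C] at h6
          rcases mul_eq_zero.1 h6 with h7 | h7
          · exact hc₁ (hsub (by rw [h7, map_zero]))
          · have h8 := (ad.not_mem_P s'.1).1 s'.2
            rw [isUnit_lo_iff ad.SA, ad.ev_coe] at h8
            exact h8.1 h7
        · exact h1
      have hfg : algebraMap (lo A S)[X] R f ∣ algebraMap _ R (C c₂) * algebraMap _ R g := by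
        rw [← map_mul, hq₂, map_mul]
        exact Dvd.dvd.mul_left hfh _
      exact (hprime.2.2 _ _ hfg).resolve_left (hcne c₂ hc₂)
    · rw [Ideal.span_le, Set.singleton_subset_iff]
      refine RingHom.mem_ker.2 ?_
      rw [ad.th_alg]
      exact Subtype.ext hf
  obtain ⟨h4, h5⟩ := quot_regular' h3 (fun _ => hfm) ad.th ad.th_surj hk
  refine ⟨lo_le ad.SA, h.ne, fun l => lo_mono ad.le (h.mem l), h4,
    fun y hy h0 h1 => inv_mem_lo ad.SA hy h0 h1, ?_⟩
  convert h5 using 1
  funext l
  apply Subtype.ext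
  change x l = _
  rw [ad.th_alg, ad.ev_C]

/-- A parameter. -/
lemma regP_one {S : Subring F} (hS : S ≤ A) (h : IsRegularLocalRing (lo A S)) {c : F}
    (hc : c ∈ lo A S) (hcm : (⟨c, hc⟩ : lo A S) ∈ maximalIdeal (lo A S))
    (hc2 : (⟨c, hc⟩ : lo A S) ∉ maximalIdeal (lo A S) ^ 2) :
    RegP A (lo A S) (fun _ : Unit => c) where
  PA := lo_le hS
  ne := fun _ h0 => by
    apply hc2
    have h1 : (⟨c, hc⟩ : lo A S) = 0 := Subtype.ext h0
    rw [h1]
    exact Ideal.zero_mem _
  mem := fun _ => hc
  reg := h
  inv := fun _ hz h0 h1 => inv_mem_lo hS hz h0 h1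
  ind := by
    have hind : Ind (fun _ : Unit => (⟨c, hc⟩ : lo A S)) := by
      refine ⟨fun _ => hcm, fun c' hc' i => ?_⟩
      by_contra hi
      have hu' : IsUnit (c' i) := by
        by_contra h
        exact hi ((mem_maximalIdeal _).2 h)
      apply hc2
      rw [Fintype.sum_unique] at hc'
      obtain ⟨v, hv⟩ := hu'
      have hdef : (default : Unit) = i := rfl
      rw [hdef, ← hv] at hc'
      have h1 := Ideal.mul_mem_left (maximalIdeal (lo A S) ^ 2) (↑v⁻¹ : lo A S) hc'
      rwa [Units.inv_mul_cancel_left] at h1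
    exact IndN.of_ind id Function.injective_id (fun i _ => ⟨i, rfl⟩) hind

/-- A subfamily of the parameters. -/
lemma regP_sub {P : Subring F} (h : RegP A P x) {κ : Type} [Fintype κ] (f : κ → ι)
    (hf : Function.Injective f) : RegP A P (x ∘ f) where
  PA := h.PA
  ne := fun k => h.ne (f k)
  mem := fun k => h.mem (f k)
  reg := h.reg
  inv := h.inv
  ind := by
    classical
    have hloc := h.reg.toIsLocalRing
    let N := {k : κ // (⟨x (f k), h.mem (f k)⟩ : P) ∈ maximalIdeal P}
    have h1 : Ind (fun k : N => (⟨x (f k.1), h.mem (f k.1)⟩ : P)) :=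
      h.ind.ind (fun k : N => f k.1) (fun a b hab => Subtype.val_injective (hf hab)) (fun k => k.2)
    exact IndN.of_ind (Subtype.val : N → κ) Subtype.val_injective (fun i hi => ⟨⟨i, hi⟩, rfl⟩) h1

/-- The quotient by the parameters. -/
lemma regP_quot {P : Subring F} (h : RegP A P x) (hm : ∀ i, ¬ (x i ≠ 0 ∧ (x i)⁻¹ ∈ A))
    [IsRegularLocalRing P] :
    IsRegularLocalRing (P ⧸ Ideal.span (Set.range fun i => (⟨x i, h.mem i⟩ : P))) := by
  have h1 : Ind (fun i => (⟨x i, h.mem i⟩ : P)) :=
    h.ind.ind id Function.injective_id (fun i => (RegP.mem_max h _).2 (hm i))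
  exact h1.regular

end Pool.Agent.X269.HP
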